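import Pool.Agent.Lib.MP_531aff_lc.Main

/-!
The cases of a small value of `non(M)` and of a successor continuum.
-/

open Cardinal Set Ordinal

namespace Pool.Agent.MP531

theorem not_isMeagre_univ : ¬ IsMeagre (Set.univ : Set (ℕ → ℕ)) := by
  intro h
  obtain ⟨B, _, hB, hB'⟩ := good_meager _ h
  refine hB' ?_
  rw [univ_subset_iff.1 hB, compl_univ]
  exact countable_empty

theorem nonMeager_le : nonMeager ≤ 𝔠 := by
  refine csInf_le' ⟨Set.univ, ?_, not_isMeagre_univ⟩
  rw [mk_univ, mk_baire]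

theorem aleph0_lt_nonMeager : ℵ₀ < nonMeager := by
  have hne : {κ | ∃ A : Set (ℕ → ℕ), #A = κ ∧ ¬ IsMeagre A}.Nonempty :=
    ⟨_, Set.univ, rfl, not_isMeagre_univ⟩
  obtain ⟨A, hA, hA'⟩ := csInf_mem hne
  have hA0 : #A = nonMeager := hA
  rw [← hA0]
  by_contra hc
  have h1 : A.Countable := by
    rw [← Cardinal.le_aleph0_iff_set_countable]
    exact not_lt.1 hc
  refine hA' ?_
  have h2 : A = ⋃ x ∈ A, ({x} : Set (ℕ → ℕ)) := (biUnion_of_singleton A).symm
  rw [h2]
  refine isMeagre_biUnion h1 fun x _ ↦ ?_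
  exact residual_of_dense_open isOpen_compl_singleton (dense_compl_point x)

theorem le_of_nonMeager_lt {I J : Set (Set (ℕ → ℕ))} (hI : Good I) (hJ : Good J)
    (hJ0 : ∅ ∈ J) (h : nonMeager < ℵ_ ω) : bNum (NeMod I) ≤ dNum (NeMod J) := by
  obtain ⟨o, ho⟩ := mem_range_aleph_iff.2 (aleph0_lt_nonMeager.le)
  rw [← ho, aleph_lt_aleph] at h
  obtain ⟨n, rfl⟩ := Ordinal.lt_omega0.1 h
  have h0 : n ≠ 0 := by
    rintro rfl
    have := aleph0_lt_nonMeager
    rw [← ho] at this
    simp at this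
  obtain ⟨m, rfl⟩ := Nat.exists_eq_succ_of_ne_zero h0
  have h1 : ℵ_ ((m + 1 : ℕ) : Ordinal) = Order.succ (ℵ_ (m : Ordinal)) := by
    rw [succ_aleph]
    norm_cast
  have h2 : nonMeager = Order.succ (ℵ_ (m : Ordinal)) := by
    rw [← h1]
    exact ho.symm
  have hreg : (ℵ_ (m : Ordinal)).IsRegular := by
    cases m with
    | zero => simpa using isRegular_aleph0
    | succ k =>
      have := isRegular_aleph_add_one (k : Ordinal)
      exact_mod_cast this
  have hle : Order.succ (ℵ_ (m : Ordinal)) ≤ 𝔠 := h2 ▸ nonMeager_le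
  obtain ⟨z, hz⟩ := exists_z_nonMeager h2
    (aleph0_pos.trans_le ((aleph0_le_aleph _).trans (Order.le_succ _))).ne'
  refine bNum_le_dNum (aleph0_le_aleph _) hle z hz (col_regular hreg) ?_ hI hJ hJ0
  intro χ hχ hnd
  rw [← h1] at hnd ⊢
  exact catch_aleph (by rw [mk_baire]; exact hχ) (m + 1) (by rw [mk_baire, h1]; exact hle) hnd

theorem le_of_continuum_succ {I J : Set (Set (ℕ → ℕ))} (hI : Good I) (hJ : Good J)
    (hJ0 : ∅ ∈ J) {μ : Cardinal.{0}} (hc : 𝔠 = Order.succ μ)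
    (h : μ.IsRegular ∨ μ.ord.cof = ℵ₀) : bNum (NeMod I) ≤ dNum (NeMod J) := by
  have hμ : ℵ₀ ≤ μ := by
    refine Order.lt_succ_iff.1 ?_
    rw [← hc]
    exact aleph0_lt_continuum
  obtain ⟨z, hz⟩ := exists_z_continuum hc.symm
  have hcol : Col (KT (Order.succ μ)) (KT μ) := by
    rcases h with h | h
    · exact col_regular h
    · refine col_countable hμ h ?_
      rw [← hc, continuum_power_aleph0]
  refine bNum_le_dNum hμ hc.ge z hz hcol ?_ hI hJ hJ0
  intro χ hχ hnd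
  exact catch_self hμ (by rw [mk_baire, hc]) (by rw [mk_baire]; exact hχ) hcol hnd

theorem exists_of_continuum_lt (h : (𝔠 : Cardinal.{0}) < ℵ_ ω₁) :
    ∃ μ : Cardinal.{0}, 𝔠 = Order.succ μ ∧ (μ.IsRegular ∨ μ.ord.cof = ℵ₀) := by
  obtain ⟨a, ha⟩ := mem_range_aleph_iff.2 aleph0_le_continuum
  rw [← ha, aleph_lt_aleph] at h
  rcases Ordinal.zero_or_succ_or_isSuccLimit a with rfl | ⟨b, rfl⟩ | hlim
  · exfalso
    have := aleph0_lt_continuum
    rw [← ha] at this
    simp at this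
  · refine ⟨ℵ_ b, by rw [succ_aleph, ← ha]; rfl, ?_⟩
    rcases Ordinal.zero_or_succ_or_isSuccLimit b with rfl | ⟨c, rfl⟩ | hlim
    · left
      simpa using isRegular_aleph0
    · left
      exact isRegular_aleph_add_one c
    · right
      rw [ord_aleph, cof_map_of_isNormal isNormal_omega hlim]
      exact cof_eq_aleph0_of_isSuccLimit hlim ((Order.lt_succ b).trans h)
  · exfalso
    have h1 : (𝔠 : Cardinal.{0}).ord.cof = ℵ₀ := by
      rw [← ha, ord_aleph, cof_map_of_isNormal isNormal_omega hlim]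
      exact cof_eq_aleph0_of_isSuccLimit hlim h
    have h2 := lt_power_cof_ord (c := (𝔠 : Cardinal.{0})) aleph0_le_continuum
    rw [h1, continuum_power_aleph0] at h2
    exact absurd h2 (lt_irrefl _)

end Pool.Agent.MP531
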