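import Mathlib

/-!
Combinatorics on a well-ordered set `K` in which every subset of size at most `μ` is bounded
(`K` is the successor cardinal of `μ`): a coloring of pairs by finite sets.
-/

open Cardinal Set

namespace Pool.Agent.MP531

/-- Every subset of size at most `μ` has a strict upper bound. -/
def Bdd (K : Type) [LinearOrder K] (μ : Cardinal.{0}) : Prop :=
  ∀ S : Set K, #S ≤ μ → ∃ b, ∀ s ∈ S, s < b

/-- `A` is unbounded. -/
def Unb {K : Type} [LinearOrder K] (A : Set K) : Prop := ∀ x, ∃ a ∈ A, x ≤ a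

/-- `A` is cofinal below `ε`. -/
def CofIn {K : Type} [LinearOrder K] (A : Set K) (ε : K) : Prop :=
  ∀ γ < ε, ∃ a ∈ A, γ ≤ a ∧ a < ε

/-- Every subset of size less than `θ` of the points below `ε` is bounded below `ε`. -/
def HighCof {K : Type} [LinearOrder K] (θ : Cardinal.{0}) (ε : K) : Prop :=
  ∀ B : Set K, (∀ b ∈ B, b < ε) → #B < θ → ∃ γ < ε, ∀ b ∈ B, b ≤ γ

section basic

variable {K : Type} [LinearOrder K] {μ : Cardinal.{0}}

theorem Unb.mono {A B : Set K} (h : Unb A) (hAB : A ⊆ B) : Unb B := fun x ↦ by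
  obtain ⟨a, ha, hx⟩ := h x
  exact ⟨a, hAB ha, hx⟩

theorem exists_unb {M : Type} (hK : Bdd K μ) (hM : #M ≤ μ) (f : M → Set K)
    (h : Unb (⋃ m, f m)) : ∃ m, Unb (f m) := by
  by_contra hc
  simp only [Unb] at hc
  push Not at hc
  choose b hb using hc
  obtain ⟨c, hc⟩ := hK (range b) (mk_range_le.trans hM)
  obtain ⟨a, ha, hca⟩ := h c
  obtain ⟨m, hm⟩ := mem_iUnion.1 ha
  have h1 := hb m a hm
  have h2 := hc (b m) ⟨m, rfl⟩
  exact absurd (hca.trans_lt (h1.trans h2)) (lt_irrefl _)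

theorem Unb.lt_mk {A : Set K} (hK : Bdd K μ) (hA : Unb A) : μ < #A := by
  by_contra hc
  obtain ⟨b, hb⟩ := hK A (not_lt.1 hc)
  obtain ⟨a, ha, hba⟩ := hA b
  exact absurd (hb a ha) (not_lt.2 hba)

end basic

/-- In the initial ordinal of a regular cardinal small sets are bounded. -/
theorem bdd_of_regular {θ : Cardinal.{0}} (hθ : θ.IsRegular) (B : Set θ.ord.ToType)
    (hB : #B < θ) : ∃ t, ∀ s ∈ B, s < t := by
  by_contra hc
  push Not at hc
  have h1 : IsCofinal B := fun t ↦ hc t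
  have h2 := Order.cof_le h1
  rw [Ordinal.cof_toType, hθ.cof_ord] at h2
  exact absurd hB (not_lt.2 h2)

section limit

variable {K : Type} [LinearOrder K] [WellFoundedLT K] {μ θ : Cardinal.{0}}

/-- There are points of high cofinality that are limits of `μ` many given unbounded sets. -/
theorem exists_limit (hK : Bdd K μ) (hθ : θ.IsRegular) (hθμ : θ ≤ μ) {M : Type} (hM : #M ≤ μ)
    (A : M → Set K) (hA : ∀ j, Unb (A j)) (α : K) :
    ∃ ε, α < ε ∧ HighCof θ ε ∧ ∀ j, CofIn (A j) ε := by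
  have hμ : ℵ₀ ≤ μ := hθ.aleph0_le.trans hθμ
  have : Nonempty K := ⟨α⟩
  have hK' := hK
  choose! ub hub using hK'
  choose a ha hxa using hA
  let φ : K → K := fun x ↦ ub (insert x (range fun j ↦ a j x))
  have hφc : ∀ x, #(insert x (range fun j ↦ a j x) : Set K) ≤ μ := fun x ↦ by
    refine (mk_insert_le).trans ?_
    exact (add_le_add (mk_range_le.trans hM) (one_le_aleph0.trans hμ)).trans (by
      rw [add_eq_self hμ])
  have hφ1 : ∀ x, x < φ x := fun x ↦ hub _ (hφc x) _ (mem_insert _ _)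
  have hφ2 : ∀ x j, a j x < φ x := fun x j ↦ hub _ (hφc x) _ (mem_insert_of_mem _ ⟨j, rfl⟩)
  let Θ := θ.ord.ToType
  let F : ∀ t : Θ, (∀ s : Θ, s < t → K) → K := fun t ih ↦
    φ (ub (insert α {x | ∃ s, ∃ h : s < t, x = ih s h}))
  let v : Θ → K := wellFounded_lt.fix F
  have hv : ∀ t, v t = φ (ub (insert α {x | ∃ s, ∃ _ : s < t, x = v s})) := fun t ↦
    wellFounded_lt.fix_eq F t
  let u : Θ → K := fun t ↦ ub (insert α {x | ∃ s, ∃ _ : s < t, x = v s})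
  have huc : ∀ t, #(insert α {x | ∃ s, ∃ _ : s < t, x = v s} : Set K) ≤ μ := fun t ↦ by
    refine (mk_insert_le).trans ?_
    have h1 : ({x | ∃ s, ∃ _ : s < t, x = v s} : Set K) ⊆ range v := by
      rintro x ⟨s, _, rfl⟩
      exact ⟨s, rfl⟩
    have h2 : #({x | ∃ s, ∃ _ : s < t, x = v s} : Set K) ≤ μ :=
      (mk_le_mk_of_subset h1).trans (mk_range_le.trans (by
        show #(θ.ord.ToType) ≤ μ
        rw [mk_ord_toType]; exact hθμ))
    exact (add_le_add h2 (one_le_aleph0.trans hμ)).trans (by rw [add_eq_self hμ])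
  have hu1 : ∀ t, α < u t := fun t ↦ hub _ (huc t) _ (mem_insert _ _)
  have hu2 : ∀ s t, s < t → v s < u t := fun s t hst ↦
    hub _ (huc t) _ (mem_insert_of_mem _ ⟨s, hst, rfl⟩)
  have huv : ∀ t, u t < v t := fun t ↦ by rw [hv t]; exact hφ1 _
  have hvc : #(range v) ≤ μ := mk_range_le.trans (by
    show #(θ.ord.ToType) ≤ μ
    rw [mk_ord_toType]; exact hθμ)
  let U : Set K := {b | ∀ t, v t < b}
  have hU : U.Nonempty := by
    obtain ⟨b, hb⟩ := hK _ hvc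
    exact ⟨b, fun t ↦ hb _ ⟨t, rfl⟩⟩
  let ε := wellFounded_lt.min U hU
  have hε : ∀ t, v t < ε := wellFounded_lt.min_mem U hU
  have hεmin : ∀ γ < ε, ∃ t, γ ≤ v t := fun γ hγ ↦ by
    by_contra hc
    push Not at hc
    exact wellFounded_lt.not_lt_min U hc hγ
  have hΘ : Nonempty Θ := by
    have h1 : #Θ ≠ 0 := by
      show #(θ.ord.ToType) ≠ 0
      rw [mk_ord_toType]
      exact hθ.ne_zero
    exact mk_ne_zero_iff.1 h1
  have hnomax : ∀ t : Θ, ∃ t', t < t' := fun t ↦ by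
    obtain ⟨t', ht'⟩ := bdd_of_regular hθ {t} (by
      rw [mk_singleton]; exact lt_of_lt_of_le one_lt_aleph0 hθ.aleph0_le)
    exact ⟨t', ht' t rfl⟩
  refine ⟨ε, ?_, ?_, ?_⟩
  · obtain ⟨t⟩ := hΘ
    exact (hu1 t).trans ((huv t).trans (hε t))
  · intro B hB hBc
    have h1 : ∀ b : B, ∃ t, (b : K) ≤ v t := fun b ↦ hεmin b (hB b b.2)
    choose t ht using h1
    obtain ⟨t', ht'⟩ := bdd_of_regular hθ (range t) (mk_range_le.trans_lt hBc)
    refine ⟨v t', hε t', fun b hb ↦ ?_⟩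
    have h2 := ht' (t ⟨b, hb⟩) ⟨_, rfl⟩
    exact (ht ⟨b, hb⟩).trans ((hu2 _ _ h2).trans (huv t')).le
  · intro j γ hγ
    obtain ⟨t, ht⟩ := hεmin γ hγ
    obtain ⟨t', htt'⟩ := hnomax t
    refine ⟨a j (u t'), ha j _, ht.trans ((hu2 _ _ htt').le.trans (hxa j _)), ?_⟩
    have : a j (u t') < v t' := by rw [hv t']; exact hφ2 _ j
    exact this.trans (hε t')

/-- A partition into `M` many classes, each of which meets the limit points, of cofinality at
least `θ`, of each unbounded set. -/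
theorem exists_partition (hK : Bdd K μ) (hθ : θ.IsRegular) (hθμ : θ ≤ μ) {M : Type}
    [Nonempty M] (hM : #M ≤ μ) (ρ : K → K → M)
    (hρ : ∀ a x y, x < a → y < a → ρ a x = ρ a y → x = y) :
    ∃ c : K → M, ∀ A : Set K, Unb A → ∀ i, ∃ ε, HighCof θ ε ∧ CofIn A ε ∧ c ε = i := by
  classical
  have h1 : ∀ α : K, ∃ j : M, ∀ A : Set K, Unb A →
      ∃ ε, α < ε ∧ HighCof θ ε ∧ CofIn A ε ∧ ρ ε α = j := by
    intro α
    by_contra hc
    push Not at hc
    choose A hA hA' using hc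
    obtain ⟨ε, h1, h2, h3⟩ := exists_limit hK hθ hθμ hM A hA α
    exact hA' (ρ ε α) ε h1 h2 (h3 _) rfl
  choose j hj using h1
  obtain ⟨j₀, hj₀⟩ := exists_unb hK hM (fun m ↦ {α | j α = m}) (fun x ↦
    ⟨x, mem_iUnion.2 ⟨j x, rfl⟩, le_rfl⟩)
  have h2 : #M ≤ #{α | j α = j₀} := hM.trans (hj₀.lt_mk hK).le
  obtain ⟨e⟩ := Cardinal.le_def _ _ |>.1 h2
  refine ⟨fun ε ↦ if h : ∃ i, (e i).1 < ε ∧ ρ ε (e i).1 = j₀ then h.choose
    else Classical.arbitrary M, fun A hA i ↦ ?_⟩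
  obtain ⟨ε, h3, h4, h5, h6⟩ := hj (e i).1 A hA
  have h7 : j (e i).1 = j₀ := (e i).2
  refine ⟨ε, h4, h5, ?_⟩
  have h : ∃ i, (e i).1 < ε ∧ ρ ε (e i).1 = j₀ := ⟨i, h3, h6.trans h7⟩
  show (if h : ∃ i, (e i).1 < ε ∧ ρ ε (e i).1 = j₀ then h.choose
    else Classical.arbitrary M) = i
  rw [dif_pos h]
  obtain ⟨h8, h9⟩ := h.choose_spec
  have h10 := hρ ε _ _ h8 h3 (h9.trans (h6.trans h7).symm)
  exact e.injective (Subtype.ext h10)

end limit

section trace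

variable {K R : Type} [LinearOrder K] [LinearOrder R]

/-- The trace of the pair `δ, η`. -/
def Trace (r : K → K → R) (δ η : K) : Set K :=
  {ε | ε < η ∧ δ < ε ∧ ∀ ε' < ε, r η ε' ≤ r η ε → ε' ≤ δ}

theorem trace_finite [WellFoundedLT K] [WellFoundedLT R] (r : K → K → R) (δ η : K) :
    (Trace r δ η).Finite := by
  have : WellFoundedGT (Trace r δ η) := by
    constructor
    refine Subrelation.wf (r := InvImage (· < ·) (fun x : Trace r δ η ↦ r η x.1)) ?_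
      (InvImage.wf _ wellFounded_lt)
    intro x y hxy
    show r η x.1 < r η y.1
    by_contra hc
    exact absurd (x.2.2.2 y.1 hxy (not_lt.1 hc)) (not_le.2 y.2.2.1)
  have : Finite (Trace r δ η) := Finite.of_wellFoundedLT_wellFoundedGT _
  exact Set.toFinite _

end trace

/-- The coloring property: colors in `M`, countable sets of colors for each pair. -/
def Col (K M : Type) [LinearOrder K] : Prop :=
  ∃ G : K → K → Set M, (∀ δ η, (G δ η).Countable) ∧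
    ∀ A : Set K, Unb A → ∀ i : M, ∃ θ, ∀ η, θ ≤ η → ∃ δ ∈ A, i ∈ G δ η

section col

variable {K : Type} [LinearOrder K] [WellFoundedLT K] {μ : Cardinal.{0}}

theorem col_of_regular (hμ : μ.IsRegular) (hK : Bdd K μ) {M : Type} [LinearOrder M]
    [WellFoundedLT M] [Nonempty M] (hM : #M ≤ μ) (hM' : ∀ m : M, #(Iic m) < μ)
    (ρ : K → K → M) (hρ : ∀ a x y, x < a → y < a → ρ a x = ρ a y → x = y) : Col K M := by
  obtain ⟨c, hc⟩ := exists_partition hK hμ le_rfl hM ρ hρ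
  refine ⟨fun δ η ↦ c '' Trace ρ δ η, fun δ η ↦ ((trace_finite ρ δ η).image c).countable,
    fun A hA i ↦ ?_⟩
  obtain ⟨ε, h1, h2, h3⟩ := hc A hA i
  obtain ⟨θ, hθ⟩ := hK {ε} (by
    rw [mk_singleton]; exact one_le_aleph0.trans hμ.aleph0_le)
  refine ⟨θ, fun η hη ↦ ?_⟩
  have hεη : ε < η := (hθ ε rfl).trans_le hη
  have h4 : #{ε' | ε' < ε ∧ ρ η ε' ≤ ρ η ε} < μ := by
    refine lt_of_le_of_lt ?_ (hM' (ρ η ε))
    refine Cardinal.mk_le_of_injective (f := fun x : {ε' | ε' < ε ∧ ρ η ε' ≤ ρ η ε} ↦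
      (⟨ρ η x.1, x.2.2⟩ : Iic (ρ η ε))) ?_
    intro x y hxy
    have h5 : ρ η x.1 = ρ η y.1 := congrArg Subtype.val hxy
    exact Subtype.ext (hρ η _ _ (x.2.1.trans hεη) (y.2.1.trans hεη) h5)
  obtain ⟨γ, hγ, hγ'⟩ := h1 _ (fun b hb ↦ hb.1) h4
  obtain ⟨δ, hδ, hγδ, hδε⟩ := h2 γ hγ
  exact ⟨δ, hδ, ε, ⟨hεη, hδε, fun ε' h5 h6 ↦ (hγ' ε' ⟨h5, h6⟩).trans hγδ⟩, h3⟩

/-- The case of a cardinal `μ` of countable cofinality, with all sequences of elements of `K`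
enumerated by `K`. -/
theorem col_of_cof_countable (hμ : ℵ₀ ≤ μ) (hK : Bdd K μ) {M : Type}
    [Nonempty M] (hM : #M ≤ μ) (N : ℕ → Set M) (hN : Monotone N) (hNu : ⋃ n, N n = Set.univ)
    (ν : ℕ → Cardinal.{0}) (hν : ∀ n, ℵ₀ ≤ ν n) (hν' : ∀ n, ν n < μ) (hNν : ∀ n, #(N n) ≤ ν n)
    (ρ : K → K → M) (hρ : ∀ a x y, x < a → y < a → ρ a x = ρ a y → x = y)
    (e : K → M → K) (he : ∀ a x, x < a → ∃ m, e a m = x)
    (s : K → ℕ → K) (hs : Function.Surjective s) : Col K M := by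
  classical
  have h0 : ∀ n, ∃ c : K → M, ∀ A : Set K, Unb A → ∀ i, ∃ ε,
      HighCof (Order.succ (ν n)) ε ∧ CofIn A ε ∧ c ε = i := fun n ↦
    exists_partition hK (isRegular_succ (hν n)) (Order.succ_le_of_lt (hν' n)) hM ρ hρ
  choose c hc using h0
  let E : K → ℕ → Set K := fun η n ↦
    e η '' N n ∪ ⋃ k : ℕ, (fun m ↦ s (e η m) k) '' N n
  have hEmono : ∀ η, Monotone (E η) := fun η n n' hnn' ↦
    union_subset_union (image_mono (hN hnn'))
      (iUnion_mono fun k ↦ image_mono (hN hnn'))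
  have hEc : ∀ η n, #(E η n) ≤ ν n := fun η n ↦ by
    refine (mk_union_le _ _).trans ?_
    have h1 : #(e η '' N n) ≤ ν n := mk_image_le.trans (hNν n)
    have h2 : #(⋃ k : ℕ, (fun m ↦ s (e η m) k) '' N n) ≤ ν n := by
      refine (mk_iUnion_le _).trans ?_
      refine (mul_le_mul' (le_of_eq (mk_nat)) (ciSup_le' fun k ↦
        mk_image_le.trans (hNν n))).trans ?_
      exact (mul_le_mul' (hν n) le_rfl).trans (by rw [mul_eq_self (hν n)])
    exact (add_le_add h1 h2).trans (by rw [add_eq_self (hν n)])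
  let r : K → K → ℕ := fun η x ↦ sInf {n | x ∈ E η n}
  have hr1 : ∀ η x n, x ∈ E η n → r η x ≤ n := fun η x n h ↦ Nat.sInf_le h
  have hr2 : ∀ η x, x < η → x ∈ E η (r η x) := fun η x hx ↦ by
    obtain ⟨m, hm⟩ := he η x hx
    have h1 : m ∈ ⋃ n, N n := by rw [hNu]; exact mem_univ _
    obtain ⟨n, hn⟩ := mem_iUnion.1 h1
    exact Nat.sInf_mem (s := {n | x ∈ E η n}) ⟨n, Or.inl ⟨m, hn, hm⟩⟩
  refine ⟨fun δ η ↦ ⋃ n, c n '' Trace r δ η, fun δ η ↦ countable_iUnion fun n ↦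
    ((trace_finite r δ η).image (c n)).countable, fun A hA i ↦ ?_⟩
  choose ε h1 h2 h3 using fun n ↦ hc n A hA i
  obtain ⟨ξ, hξ⟩ := hs ε
  obtain ⟨θ, hθ⟩ := hK (insert ξ (range ε)) (by
    refine (mk_insert_le).trans ?_
    exact (add_le_add (mk_range_le.trans ((le_of_eq mk_nat).trans hμ))
      (one_le_aleph0.trans hμ)).trans (by rw [add_eq_self hμ]))
  refine ⟨θ, fun η hη ↦ ?_⟩
  have hξη : ξ < η := (hθ ξ (mem_insert _ _)).trans_le hη
  have hεη : ∀ n, ε n < η := fun n ↦ (hθ (ε n) (mem_insert_of_mem _ ⟨n, rfl⟩)).trans_le hη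
  obtain ⟨m, hm⟩ := he η ξ hξη
  have h4 : m ∈ ⋃ n, N n := by rw [hNu]; exact mem_univ _
  obtain ⟨n, hn⟩ := mem_iUnion.1 h4
  have h5 : ε n ∈ E η n := Or.inr (mem_iUnion.2 ⟨n, m, hn, by
    show s (e η m) n = ε n
    rw [hm, hξ]⟩)
  have h6 : #{ε' | ε' < ε n ∧ r η ε' ≤ r η (ε n)} < Order.succ (ν n) := by
    refine Order.lt_succ_of_le ((mk_le_mk_of_subset ?_).trans (hEc η n))
    rintro x ⟨hx1, hx2⟩
    exact hEmono η (hx2.trans (hr1 η _ n h5)) (hr2 η x (hx1.trans (hεη n)))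
  obtain ⟨γ, hγ, hγ'⟩ := h1 n _ (fun b hb ↦ hb.1) h6
  obtain ⟨δ, hδ, hγδ, hδε⟩ := h2 n γ hγ
  exact ⟨δ, hδ, mem_iUnion.2 ⟨n, ε n, ⟨hεη n, hδε, fun ε' h7 h8 ↦
    (hγ' ε' ⟨h7, h8⟩).trans hγδ⟩, h3 n⟩⟩

end col

end Pool.Agent.MP531
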