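import Pool.Agent.Lib.MP_531aff_lc.Col

/-!
Domination everywhere and catching by countable sets.
-/

open Cardinal Set

namespace Pool.Agent.MP531

/-- No family of at most `χ` functions from `X` to `K` is dominating everywhere. -/
def ND (χ : Cardinal.{0}) (X K : Type) [LinearOrder K] : Prop :=
  ∀ H : Set (X → K), #H ≤ χ → ∃ f : X → K, ∀ h ∈ H, ∃ x, h x < f x

/-- Every family of at most `χ` functions from `X` to `K` is caught by a countable-valued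
function. -/
def Catch (χ : Cardinal.{0}) (X K : Type) : Prop :=
  ∀ D : Set (X → K), #D ≤ χ →
    ∃ F : X → Set K, (∀ x, (F x).Countable) ∧ ∀ g ∈ D, ∃ x, g x ∈ F x

theorem ND.congr {χ : Cardinal.{0}} {X Y K : Type} [LinearOrder K] (e : X ≃ Y)
    (h : ND χ X K) : ND χ Y K := by
  intro H hH
  obtain ⟨f, hf⟩ := h ((fun g ↦ g ∘ e) '' H) (mk_image_le.trans hH)
  refine ⟨f ∘ e.symm, fun g hg ↦ ?_⟩
  obtain ⟨x, hx⟩ := hf _ ⟨g, hg, rfl⟩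
  exact ⟨e x, by simpa using hx⟩

theorem Catch.congr {χ : Cardinal.{0}} {X Y K : Type} (e : X ≃ Y)
    (h : Catch χ X K) : Catch χ Y K := by
  intro D hD
  obtain ⟨F, hF, hF'⟩ := h ((fun g ↦ g ∘ e) '' D) (mk_image_le.trans hD)
  refine ⟨F ∘ e.symm, fun x ↦ hF _, fun g hg ↦ ?_⟩
  obtain ⟨x, hx⟩ := hF' _ ⟨g, hg, rfl⟩
  exact ⟨e x, by simpa using hx⟩

theorem nd_diag {χ : Cardinal.{0}} {X K : Type} [LinearOrder K] [Nonempty K]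
    (hK : ∀ x : K, ∃ y, x < y) (hX : χ ≤ #X) : ND χ X K := by
  classical
  intro H hH
  obtain ⟨ι⟩ := Cardinal.le_def _ _ |>.1 (hH.trans hX)
  choose su hsu using hK
  refine ⟨fun x ↦ if h : ∃ g : H, ι g = x then su (h.choose.1 x) else Classical.arbitrary K,
    fun g hg ↦ ⟨ι ⟨g, hg⟩, ?_⟩⟩
  have h : ∃ g' : H, ι g' = ι ⟨g, hg⟩ := ⟨_, rfl⟩
  have h1 : h.choose = ⟨g, hg⟩ := ι.injective h.choose_spec
  show g _ < (if h : ∃ g' : H, ι g' = ι ⟨g, hg⟩ then su (h.choose.1 (ι ⟨g, hg⟩)) else Classical.arbitrary K)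
  rw [dif_pos h, h1]
  exact hsu _

section down

variable {K : Type} [LinearOrder K] {μ : Cardinal.{0}}

/-- Going down from `K = μ⁺` to `M = μ`. -/
theorem nd_down {χ : Cardinal.{0}} {X M : Type} [LinearOrder M] (hK : Bdd K μ)
    (hM' : ∀ m : M, #(Iic m) < μ) (ρ : K → K → M)
    (hρ : ∀ a x y, x < a → y < a → ρ a x = ρ a y → x = y) (h : ND χ X K) :
    ND χ (X × K) M := by
  intro H hH
  have h1 : ∀ (g : X × K → M) (x : X), ∃ b : K, ∀ η : K, (∀ δ, η < δ → ρ δ η ≤ g (x, δ)) → η < b := by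
    intro g x
    let S : Set K := {η | ∀ δ, η < δ → ρ δ η ≤ g (x, δ)}
    have hS : #S ≤ μ := by
      by_contra hc
      obtain ⟨S₀, hS₀, hS₀'⟩ := le_mk_iff_exists_subset.1 (not_le.1 hc).le
      obtain ⟨b, hb⟩ := hK S₀ hS₀'.le
      have h2 : #S₀ ≤ #(Iic (g (x, b))) := by
        refine Cardinal.mk_le_of_injective (f := fun y : S₀ ↦
          (⟨ρ b y.1, hS₀ y.2 b (hb _ y.2)⟩ : Iic (g (x, b)))) ?_
        intro y z hyz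
        exact Subtype.ext (hρ b _ _ (hb _ y.2) (hb _ z.2) (congrArg Subtype.val hyz))
      rw [hS₀'] at h2
      exact absurd (hM' _) (not_lt.2 h2)
    obtain ⟨b, hb⟩ := hK S hS
    exact ⟨b, fun η hη ↦ hb η hη⟩
  choose b hb using h1
  obtain ⟨f, hf⟩ := h ((fun g ↦ fun x ↦ b g x) '' H) (mk_image_le.trans hH)
  refine ⟨fun p ↦ ρ p.2 (f p.1), fun g hg ↦ ?_⟩
  obtain ⟨x, hx⟩ := hf _ ⟨g, hg, rfl⟩
  by_contra hc
  push Not at hc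
  exact absurd (hb g x (f x) (fun δ _ ↦ hc (x, δ))) (not_lt.2 hx.le)

/-- Going up from `M = μ` to `K = μ⁺`. -/
theorem catch_step {χ : Cardinal.{0}} {X M : Type} [Nonempty X] [Nonempty M] (e : K → M → K)
    (he : ∀ a x, x < a → ∃ m, e a m = x) (hχ : ℵ₀ ≤ χ) (hX : #X ≤ χ) (h : ND χ X K)
    (h' : Catch χ X M) : Catch χ (X × X) K := by
  intro D hD
  have h1 : #(⋃ γ : X, (fun (g : X × X → K) (β : X) ↦ g (γ, β)) '' D) ≤ χ := by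
    refine (mk_iUnion_le _).trans ?_
    refine (mul_le_mul' hX (ciSup_le' fun γ ↦ mk_image_le.trans hD)).trans ?_
    rw [mul_eq_self hχ]
  obtain ⟨f, hf⟩ := h _ h1
  have h2 : ∀ (g : X × X → K), g ∈ D → ∀ γ, ∃ β, ∃ m, e (f β) m = g (γ, β) := by
    intro g hg γ
    obtain ⟨β, hβ⟩ := hf _ (mem_iUnion.2 ⟨γ, g, hg, rfl⟩)
    obtain ⟨m, hm⟩ := he _ _ hβ
    exact ⟨β, m, hm⟩
  choose! β m hm using h2
  obtain ⟨F, hF, hF'⟩ := h' (m '' D) (mk_image_le.trans hD)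
  refine ⟨fun p ↦ e (f p.2) '' F p.1, fun p ↦ (hF _).image _, fun g hg ↦ ?_⟩
  obtain ⟨γ, hγ⟩ := hF' _ ⟨g, hg, rfl⟩
  exact ⟨(γ, β g γ), m g γ, hγ, hm g hg γ⟩

/-- Catching functions from `K × K` to `K = μ⁺` by means of the coloring. -/
theorem catch_of_col {χ : Cardinal.{0}} {M : Type} [Nonempty K] [Nonempty M] (hK : Bdd K μ) (hM : #M ≤ μ)
    (hIic : ∀ a : K, #(Iic a) ≤ μ) (hcol : Col K M) (e : K → M → K)
    (he : ∀ a x, x < a → ∃ m, e a m = x) (hχ : ℵ₀ ≤ χ) (hKχ : #K ≤ χ) (h : ND χ K K) :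
    Catch χ (K × K) K := by
  classical
  intro D hD
  obtain ⟨G, hG, hG'⟩ := hcol
  -- bounds of the sections
  have h1 : ∀ (g : K × K → K) (δ : K), ∃ b, ∀ ζ ≤ δ, g (ζ, δ) < b := by
    intro g δ
    obtain ⟨b, hb⟩ := hK ((fun ζ ↦ g (ζ, δ)) '' Iic δ) (mk_image_le.trans (hIic δ))
    exact ⟨b, fun ζ hζ ↦ hb _ ⟨ζ, hζ, rfl⟩⟩
  choose b hb using h1
  have h2 : #(⋃ α : K, (fun (g : K × K → K) (δ : K) ↦ max (b g δ) α) '' D) ≤ χ := by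
    refine (mk_iUnion_le _).trans ?_
    refine (mul_le_mul' hKχ (ciSup_le' fun γ ↦ mk_image_le.trans hD)).trans ?_
    rw [mul_eq_self hχ]
  obtain ⟨f, hf⟩ := h _ h2
  -- the set where `f` is above is unbounded
  have h3 : ∀ g ∈ D, Unb {δ | b g δ < f δ} := by
    intro g hg δ₀
    obtain ⟨α, hα⟩ := hK (f '' Iic δ₀) (mk_image_le.trans (hIic δ₀))
    obtain ⟨δ, hδ⟩ := hf _ (mem_iUnion.2 ⟨α, g, hg, rfl⟩)
    refine ⟨δ, (le_max_left _ _).trans_lt hδ, ?_⟩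
    by_contra hc
    exact absurd ((hα _ ⟨δ, (not_le.1 hc).le, rfl⟩).trans ((le_max_right _ _).trans_lt hδ))
      (lt_irrefl _)
  have h4 : ∀ g ∈ D, ∀ ζ, ∃ m : M, Unb {δ | ζ ≤ δ ∧ b g δ < f δ ∧ e (f δ) m = g (ζ, δ)} := by
    intro g hg ζ
    refine exists_unb hK hM _ fun x ↦ ?_
    obtain ⟨δ, hδ, hxδ⟩ := h3 g hg (max x ζ)
    have h5 : g (ζ, δ) < f δ := (hb g δ ζ ((le_max_right _ _).trans hxδ)).trans hδ
    obtain ⟨m, hm⟩ := he _ _ h5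
    exact ⟨δ, mem_iUnion.2 ⟨m, (le_max_right _ _).trans hxδ, hδ, hm⟩,
      (le_max_left _ _).trans hxδ⟩
  choose! m hm using h4
  have h5 : ∀ g ∈ D, ∀ ζ, ∃ θ, ∀ η, θ ≤ η → ∃ δ, e (f δ) (m g ζ) = g (ζ, δ) ∧
      m g ζ ∈ G δ η := by
    intro g hg ζ
    obtain ⟨θ, hθ⟩ := hG' _ (hm g hg ζ) (m g ζ)
    refine ⟨θ, fun η hη ↦ ?_⟩
    obtain ⟨δ, hδ, hδ'⟩ := hθ η hη
    exact ⟨δ, hδ.2.2, hδ'⟩
  choose! θ hθ using h5
  obtain ⟨f', hf'⟩ := h (θ '' D) (mk_image_le.trans hD)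
  refine ⟨fun p ↦ e (f p.2) '' G p.2 (f' p.1), fun p ↦ (hG _ _).image _, fun g hg ↦ ?_⟩
  obtain ⟨ζ, hζ⟩ := hf' _ ⟨g, hg, rfl⟩
  obtain ⟨δ, hδ, hδ'⟩ := hθ g hg ζ _ hζ.le
  exact ⟨(ζ, δ), m g ζ, hδ', hδ⟩

/-- A small family of countable-valued functions catching every function in every row. -/
theorem exists_cover {M X : Type} (hK : Bdd K μ) (hM : #M ≤ μ) (hcol : Col K M)
    (e : K → M → K) (he : ∀ a x, x ≤ a → ∃ m, e a m = x)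
    (H : Set (X → K)) (hH : ∀ f : X → K, ∃ h ∈ H, ∀ x, f x ≤ h x)
    (H₂ : Set (X × K → K)) (hH₂ : ∀ f : X × K → K, ∃ h ∈ H₂, ∀ x, f x ≤ h x) :
    ∃ F : H × H₂ → X × K → Set K, (∀ p x, (F p x).Countable) ∧
      ∀ g : X × K → K, ∃ p, ∀ x, ∃ δ, g (x, δ) ∈ F p (x, δ) := by
  obtain ⟨G, hG, hG'⟩ := hcol
  refine ⟨fun p x ↦ e (p.2.1 x) '' G x.2 (p.1.1 x.1), fun p x ↦ (hG _ _).image _, fun g ↦ ?_⟩
  obtain ⟨h₂, hh₂, hgh⟩ := hH₂ g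
  have h4 : ∀ x, ∃ m : M, Unb {δ | e (h₂ (x, δ)) m = g (x, δ)} := by
    intro x
    refine exists_unb hK hM _ fun δ ↦ ⟨δ, ?_, le_rfl⟩
    obtain ⟨m, hm⟩ := he _ _ (hgh (x, δ))
    exact mem_iUnion.2 ⟨m, hm⟩
  choose m hm using h4
  have h5 : ∀ x, ∃ θ, ∀ η, θ ≤ η → ∃ δ, e (h₂ (x, δ)) (m x) = g (x, δ) ∧ m x ∈ G δ η := by
    intro x
    obtain ⟨θ, hθ⟩ := hG' _ (hm x) (m x)
    refine ⟨θ, fun η hη ↦ ?_⟩
    obtain ⟨δ, hδ, hδ'⟩ := hθ η hη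
    exact ⟨δ, hδ, hδ'⟩
  choose θ hθ using h5
  obtain ⟨h₁, hh₁, hθh⟩ := hH θ
  refine ⟨(⟨h₁, hh₁⟩, ⟨h₂, hh₂⟩), fun x ↦ ?_⟩
  obtain ⟨δ, hδ, hδ'⟩ := hθ x _ (hθh x)
  exact ⟨δ, m x, hδ', hδ⟩

end down

end Pool.Agent.MP531
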