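import Mathlib

/-!
The covering number of the meager ideal.
-/

open Cardinal Set

namespace Pool.Agent.MP531

/-- `cov(M)`: the least cardinality of a family of meager subsets of the Baire space whose union
is the whole space. -/
noncomputable def covMeager : Cardinal.{0} :=
  sInf {κ | ∃ C : Set (Set (ℕ → ℕ)), #C = κ ∧ (∀ A ∈ C, IsMeagre A) ∧ ⋃₀ C = Set.univ}

end Pool.Agent.MP531
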