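import Mathlib

/-!
Definitions for the statements on the higher dimensional cardinal characteristics
of the eventually-different relation.
-/

open Cardinal Set

namespace Pool.Agent.MP531

/-- `x ≠* y`: the elements `x, y` of the Baire space differ at all but finitely many places. -/
def EvDiff (x y : ℕ → ℕ) : Prop := ∀ᶠ k in Filter.atTop, x k ≠ y k

/-- The relation `f ≠*_I g` between functions from the Baire space to itself: the set of all `x`
for which `f x ≠* g x` fails belongs to `I`. -/
def NeMod (I : Set (Set (ℕ → ℕ))) (f g : (ℕ → ℕ) → (ℕ → ℕ)) : Prop :=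
  {x | ¬ EvDiff (f x) (g x)} ∈ I

/-- The bounding number of a relation `R`: the least cardinality of a set `A` for which there is
no `x` with `R y x` for all `y` in `A`. -/
noncomputable def bNum {α : Type} (R : α → α → Prop) : Cardinal.{0} :=
  sInf {κ | ∃ A : Set α, #A = κ ∧ ¬ ∃ x, ∀ y ∈ A, R y x}

/-- The dominating number of a relation `R`: the least cardinality of a set `A` such that for
every `x` there is `y` in `A` with `R x y`. -/
noncomputable def dNum {α : Type} (R : α → α → Prop) : Cardinal.{0} :=
  sInf {κ | ∃ A : Set α, #A = κ ∧ ∀ x, ∃ y ∈ A, R x y}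

/-- The null sets of a measure on the Baire space. -/
def nullSets (m : MeasureTheory.Measure (ℕ → ℕ)) : Set (Set (ℕ → ℕ)) := {A | m A = 0}

/-- The meager subsets of the Baire space. -/
def meagerSets : Set (Set (ℕ → ℕ)) := {A | IsMeagre A}

/-- The subsets of the Baire space that are contained in a sigma-compact set. -/
def sigmaCompactSets : Set (Set (ℕ → ℕ)) := {A | ∃ B, IsSigmaCompact B ∧ A ⊆ B}

/-- `I` is the ideal of null sets of an atomless Borel probability measure, the ideal of meager
sets or the ideal generated by the sigma-compact sets. -/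
def IsNMK (I : Set (Set (ℕ → ℕ))) : Prop :=
  (∃ m : MeasureTheory.Measure (ℕ → ℕ), MeasureTheory.IsProbabilityMeasure m ∧
    (∀ x, m {x} = 0) ∧ I = nullSets m) ∨ I = meagerSets ∨ I = sigmaCompactSets

/-- `non(M)`: the least cardinality of a subset of the Baire space that is not meager. -/
noncomputable def nonMeager : Cardinal.{0} :=
  sInf {κ | ∃ A : Set (ℕ → ℕ), #A = κ ∧ ¬ IsMeagre A}

end Pool.Agent.MP531
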