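import Pool.Agent.Lib.MP_531aff_lc.Small
import Pool.Agent.Lib.MP_531aff_lc.Cov

/-!
Codings of the reals from nonmeager sets and from the covering number of the meager ideal.
-/

open Cardinal Set Filter Topology

namespace Pool.Agent.MP531

/-- `z` agrees with `g` infinitely often on each of the infinitely many columns. -/
def Catc (z g : ℕ → ℕ) : Prop := ∀ n, ∃ᶠ k in atTop, (Nat.unpair k).1 = n ∧ z k = g k

theorem Catc.not_evDiff {z g : ℕ → ℕ} (h : Catc z g) : ¬ EvDiff z g := by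
  rw [EvDiff, not_eventually]
  refine (h 0).mono fun k hk ↦ ?_
  rw [not_not]
  exact hk.2

theorem catc_self (g : ℕ → ℕ) : Catc g g := by
  intro n
  rw [frequently_atTop]
  intro a
  exact ⟨Nat.pair n a, Nat.right_le_pair n a, by simp, rfl⟩

theorem exists_combc {K : Type} (z : K → ℕ → ℕ) (S : Set K) (hS : S.Countable) :
    ∃ f : ℕ → ℕ, ∀ i ∈ S, ∀ g, Catc (z i) g → ¬ EvDiff f g := by
  rcases S.eq_empty_or_nonempty with rfl | hne
  · exact ⟨0, fun i hi ↦ absurd hi (notMem_empty i)⟩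
  · obtain ⟨s, rfl⟩ := hS.exists_eq_range hne
    refine ⟨fun k ↦ z (s (Nat.unpair k).1) k, ?_⟩
    rintro _ ⟨n, rfl⟩ g hg
    rw [EvDiff, not_eventually]
    refine (hg n).mono fun k hk ↦ ?_
    rw [not_not, hk.1]
    exact hk.2

theorem isMeagre_not_catc (g : ℕ → ℕ) : IsMeagre {y | ¬ Catc y g} := by
  have h1 : {y | ¬ Catc y g}ᶜ ∈ residual (ℕ → ℕ) := by
    have h2 : ∀ n N : ℕ, ∀ᶠ y : ℕ → ℕ in residual (ℕ → ℕ),
        ∃ k, N ≤ k ∧ (Nat.unpair k).1 = n ∧ y k = g k := by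
      intro n N
      refine residual_of_dense_open (s := {y : ℕ → ℕ | ∃ k, N ≤ k ∧ (Nat.unpair k).1 = n ∧ y k = g k}) ?_ ?_
      · have h3 : {y : ℕ → ℕ | ∃ k, N ≤ k ∧ (Nat.unpair k).1 = n ∧ y k = g k} =
            ⋃ k : ℕ, {y : ℕ → ℕ | N ≤ k ∧ (Nat.unpair k).1 = n ∧ y k = g k} := by
          ext y
          simp
        rw [h3]
        refine isOpen_iUnion fun k ↦ ?_
        by_cases hk : N ≤ k ∧ (Nat.unpair k).1 = n
        · have h4 : {y : ℕ → ℕ | N ≤ k ∧ (Nat.unpair k).1 = n ∧ y k = g k} =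
              (fun y : ℕ → ℕ ↦ y k) ⁻¹' {g k} := by
            ext y
            simp [hk.1, hk.2]
          rw [h4]
          exact (isOpen_discrete _).preimage (continuous_apply k)
        · have h4 : {y : ℕ → ℕ | N ≤ k ∧ (Nat.unpair k).1 = n ∧ y k = g k} = ∅ := by
            ext y
            simp only [mem_ofPred_eq, mem_empty_iff_false, iff_false]
            exact fun h ↦ hk ⟨h.1, h.2.1⟩
          rw [h4]
          exact isOpen_empty
      · intro y
        refine mem_closure_of_tendsto (tendsto_update y (fun m ↦ Nat.pair n (m + N))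
          (fun m ↦ (Nat.le_add_right m N).trans (Nat.right_le_pair n _))
          (fun m ↦ g (Nat.pair n (m + N)))) (Eventually.of_forall fun m ↦ ?_)
        exact ⟨Nat.pair n (m + N), (Nat.le_add_left N m).trans (Nat.right_le_pair n _),
          by simp, by rw [Function.update_self]⟩
    have h5 : ∀ᶠ y : ℕ → ℕ in residual (ℕ → ℕ), ∀ n N : ℕ,
        ∃ k, N ≤ k ∧ (Nat.unpair k).1 = n ∧ y k = g k := by
      rw [eventually_countable_forall]
      intro n
      rw [eventually_countable_forall]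
      exact h2 n
    refine mem_of_superset h5 fun y hy ↦ ?_
    intro hc
    refine hc fun n ↦ ?_
    rw [frequently_atTop]
    intro N
    obtain ⟨k, h6, h7, h8⟩ := hy n N
    exact ⟨k, h6, h7, h8⟩
  exact h1

/-- A nonmeager set of size at most `κ` gives a coding by `κ` with countable sets. -/
theorem guess_nonMeager {K : Type} {A : Set (ℕ → ℕ)} (hA : ¬ IsMeagre A) (hAK : #A ≤ #K) :
    Guess (Order.succ ℵ₀) K := by
  classical
  obtain ⟨ι⟩ := Cardinal.le_def _ _ |>.1 hAK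
  have hne : Nonempty A := by
    by_contra hc
    refine hA ?_
    rw [not_nonempty_iff, isEmpty_coe_sort] at hc
    rw [hc]
    exact IsMeagre.empty
  let z : K → ℕ → ℕ := fun i ↦ (Function.invFun ι i).1
  have hz : ∀ g, ∃ i, Catc (z i) g := by
    intro g
    by_contra hc
    push Not at hc
    refine hA ((isMeagre_not_catc g).mono fun y hy ↦ ?_)
    have h1 := hc (ι ⟨y, hy⟩)
    have h2 : z (ι ⟨y, hy⟩) = y := by
      show (Function.invFun ι (ι ⟨y, hy⟩)).1 = y
      rw [Function.leftInverse_invFun ι.injective]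
    rwa [h2] at h1
  choose idx hidx using hz
  refine ⟨idx, fun S hS ↦ ?_⟩
  obtain ⟨f, hf⟩ := exists_combc z S (Cardinal.le_aleph0_iff_set_countable.1
    (Order.lt_succ_iff.1 hS))
  exact ⟨f, fun g hg ↦ hf _ hg g (hidx g)⟩

theorem guess_cov {K : Type} (hK : #K = 𝔠) : Guess covMeager K := by
  obtain ⟨e⟩ := Cardinal.eq.1 (show #(ℕ → ℕ) = #K by rw [mk_baire, hK])
  refine ⟨e, fun S hS ↦ ?_⟩
  let C : Set (Set (ℕ → ℕ)) := (fun i ↦ {y | ¬ Catc y (e.symm i)}) '' S
  have hC : ⋃₀ C ≠ Set.univ := by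
    intro hu
    have h1 : covMeager ≤ #C := csInf_le' ⟨C, rfl, by
      rintro _ ⟨i, hi, rfl⟩
      exact isMeagre_not_catc _, hu⟩
    exact absurd (h1.trans mk_image_le) (not_le.2 hS)
  obtain ⟨f, hf⟩ := (ne_univ_iff_exists_notMem _).1 hC
  refine ⟨f, fun g hg ↦ ?_⟩
  by_contra hc
  refine hf (mem_sUnion.2 ⟨_, ⟨e g, hg, rfl⟩, ?_⟩)
  show ¬ Catc f (e.symm (e g))
  rw [Equiv.symm_apply_apply]
  exact fun h ↦ h.not_evDiff hc

theorem covMeager_le : covMeager ≤ 𝔠 := by
  refine (csInf_le' (s := {κ | ∃ C : Set (Set (ℕ → ℕ)), #C = κ ∧ (∀ A ∈ C, IsMeagre A) ∧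
    ⋃₀ C = Set.univ}) ⟨range fun x : ℕ → ℕ ↦ ({x} : Set (ℕ → ℕ)), rfl, ?_, ?_⟩).trans ?_
  · rintro _ ⟨x, rfl⟩
    exact residual_of_dense_open isOpen_compl_singleton (dense_compl_point x)
  · rw [sUnion_range]
    exact eq_univ_of_forall fun x ↦ mem_iUnion.2 ⟨x, rfl⟩
  · exact mk_range_le.trans mk_baire.le

theorem aleph0_lt_covMeager : ℵ₀ < covMeager := by
  have hne : {κ | ∃ C : Set (Set (ℕ → ℕ)), #C = κ ∧ (∀ A ∈ C, IsMeagre A) ∧
      ⋃₀ C = Set.univ}.Nonempty := by
    refine ⟨_, range fun x : ℕ → ℕ ↦ ({x} : Set (ℕ → ℕ)), rfl, ?_, ?_⟩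
    · rintro _ ⟨x, rfl⟩
      exact residual_of_dense_open isOpen_compl_singleton (dense_compl_point x)
    · rw [sUnion_range]
      exact eq_univ_of_forall fun x ↦ mem_iUnion.2 ⟨x, rfl⟩
  obtain ⟨C, hC, hC1, hC2⟩ := csInf_mem hne
  have hC0 : #C = covMeager := hC
  rw [← hC0]
  by_contra hc
  have h1 : C.Countable := Cardinal.le_aleph0_iff_set_countable.1 (not_lt.1 hc)
  have h2 : IsMeagre (⋃₀ C) := by
    rw [sUnion_eq_biUnion]
    exact isMeagre_biUnion h1 hC1
  rw [hC2] at h2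
  obtain ⟨B, _, hB, hB'⟩ := good_meager _ h2
  refine hB' ?_
  rw [univ_subset_iff.1 hB, compl_univ]
  exact countable_empty

/-- The comparison when `μ⁺` lies between `non(M)` and the continuum. -/
theorem le_of_nonMeager_le {I J : Set (Set (ℕ → ℕ))} (hI : Good I) (hJ : Good J)
    (hJ0 : ∅ ∈ J) {μ : Cardinal.{0}} (hμ : μ.IsRegular ∨ μ.ord.cof = ℵ₀)
    (hc : Order.succ μ ≤ 𝔠) {A : Set (ℕ → ℕ)} (hA : ¬ IsMeagre A)
    (hA' : #A ≤ Order.succ μ) : bNum (NeMod I) ≤ dNum (NeMod J) := by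
  rcases hμ with h | h
  · exact compare_succ h.aleph0_le hc (guess_nonMeager hA (by rwa [mk_ord_toType]))
      ((col_regular h).colR (Order.lt_succ _)) hI hJ hJ0
  · have h0 : ℵ₀ ≤ μ := by
      rw [← h]
      exact Ordinal.cof_ord_le μ
    have h0' : ℵ₀ ≤ Order.succ μ := h0.trans (Order.le_succ μ)
    rcases eq_or_lt_of_le hc with h1 | h1
    · exact compare_succ h0 hc (guess_nonMeager hA (by rwa [mk_ord_toType]))
        ((col_countable h0 h (by rw [h1, continuum_power_aleph0])).colR (Order.lt_succ _))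
        hI hJ hJ0
    · exact compare_succ h0' (Order.succ_le_of_lt h1)
        (guess_nonMeager hA (by rw [mk_ord_toType]; exact hA'.trans (Order.le_succ _)))
        ((col_regular (isRegular_succ h0)).colR (Order.lt_succ _)) hI hJ hJ0

/-- The comparison when the continuum is at most `cov(M)⁺`. -/
theorem le_of_continuum_le_cov {I J : Set (Set (ℕ → ℕ))} (hI : Good I) (hJ : Good J)
    (hJ0 : ∅ ∈ J) (h : 𝔠 ≤ Order.succ covMeager) : bNum (NeMod I) ≤ dNum (NeMod J) := by
  rcases eq_or_lt_of_le covMeager_le with h1 | h1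
  · have h2 : Nonempty (KT 𝔠) := nonempty_KT aleph0_le_continuum
    refine compare_initial (K := KT 𝔠) (fun x ↦ ?_) (guess_cov (by rw [mk_ord_toType]))
      (fun a ↦ by rw [h1]; exact mk_Iic_lt aleph0_le_continuum a) hI hJ hJ0
    by_contra hc
    push Not at hc
    have h3 : #(KT 𝔠) ≤ #(Iic x) := by
      rw [← mk_univ]
      exact mk_le_mk_of_subset fun y _ ↦ hc y
    rw [mk_ord_toType] at h3
    exact absurd (mk_Iic_lt aleph0_le_continuum x) (not_lt.2 h3)
  · have h2 : Order.succ covMeager = 𝔠 := le_antisymm (Order.succ_le_of_lt h1) h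
    exact compare_succ aleph0_lt_covMeager.le h2.le (guess_cov (by rw [mk_ord_toType, h2]))
      (colR_initial aleph0_lt_covMeager.le) hI hJ hJ0

end Pool.Agent.MP531
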