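import Pool.Agent.Lib.MP_531aff_lc.Defs

/-!
The ideals of null, meager and sigma-compact sets: covers by Borel sets with uncountable
complement; disjoint selections.
-/

open Cardinal Set Filter Topology

namespace Pool.Agent.MP531

/-- Every member is contained in a Borel set with uncountable complement. -/
def Good (I : Set (Set (ℕ → ℕ))) : Prop :=
  ∀ A ∈ I, ∃ B : Set (ℕ → ℕ), MeasurableSet B ∧ A ⊆ B ∧ ¬ (Bᶜ).Countable

theorem mk_baire : #(ℕ → ℕ) = 𝔠 := by
  rw [← power_def, mk_nat, aleph0_power_aleph0]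

theorem not_countable_baire : ¬ (Set.univ : Set (ℕ → ℕ)).Countable := by
  rw [← Cardinal.le_aleph0_iff_set_countable, mk_univ, mk_baire]
  exact not_le.2 aleph0_lt_continuum

theorem good_null (m : MeasureTheory.Measure (ℕ → ℕ)) [MeasureTheory.IsProbabilityMeasure m]
    (hm : ∀ x, m {x} = 0) : Good (nullSets m) := by
  intro A hA
  have hA' : m A = 0 := hA
  refine ⟨MeasureTheory.toMeasurable m A, MeasureTheory.measurableSet_toMeasurable m A,
    MeasureTheory.subset_toMeasurable m A, fun hc ↦ ?_⟩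
  have h1 : m (MeasureTheory.toMeasurable m A) = 0 := by
    rw [MeasureTheory.measure_toMeasurable, hA']
  have h2 : m (MeasureTheory.toMeasurable m A)ᶜ = 0 := by
    rw [← biUnion_of_singleton (MeasureTheory.toMeasurable m A)ᶜ]
    exact (MeasureTheory.measure_biUnion_null_iff hc).2 fun x _ ↦ hm x
  have h3 : m Set.univ ≤ 0 := by
    rw [← union_compl_self (MeasureTheory.toMeasurable m A)]
    refine (MeasureTheory.measure_union_le _ _).trans ?_
    rw [h1, h2, add_zero]
  rw [MeasureTheory.measure_univ] at h3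
  exact absurd h3 (by norm_num)

/-- Points agreeing with `y` far out accumulate at `y`. -/
theorem tendsto_update (y : ℕ → ℕ) (k : ℕ → ℕ) (hk : ∀ m, m ≤ k m) (v : ℕ → ℕ) :
    Tendsto (fun m ↦ Function.update y (k m) (v m)) atTop (𝓝 y) := by
  rw [tendsto_pi_nhds]
  intro j
  refine tendsto_const_nhds.congr' ?_
  filter_upwards [eventually_gt_atTop j] with m hm
  rw [Function.update_of_ne (by have := hk m; omega)]

theorem dense_compl_point (x : ℕ → ℕ) : Dense ({x}ᶜ : Set (ℕ → ℕ)) := by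
  intro y
  refine mem_closure_of_tendsto (tendsto_update y id (fun m ↦ le_rfl) (fun m ↦ x m + 1))
    (Eventually.of_forall fun m ↦ ?_)
  intro h
  have h1 : Function.update y (id m) (x m + 1) m = x m := congrFun h m
  rw [id, Function.update_self] at h1
  omega

theorem good_meager : Good meagerSets := by
  intro A hA
  have hA' : Aᶜ ∈ residual (ℕ → ℕ) := hA
  obtain ⟨t, htA, htG, htd⟩ := mem_residual.1 hA'
  refine ⟨tᶜ, htG.measurableSet.compl, fun a ha h ↦ htA h ha, fun hc ↦ ?_⟩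
  rw [compl_compl] at hc
  have h1 : t ∈ residual (ℕ → ℕ) := mem_residual.2 ⟨t, subset_rfl, htG, htd⟩
  have h2 : (⋂ x ∈ t, ({x}ᶜ : Set (ℕ → ℕ))) ∈ residual (ℕ → ℕ) := by
    rw [countable_bInter_mem hc]
    intro x _
    exact residual_of_dense_open isOpen_compl_singleton (dense_compl_point x)
  obtain ⟨x, hx, hx'⟩ := (dense_of_mem_residual (Filter.inter_mem h1 h2)).nonempty
  exact (mem_iInter₂.1 hx' x hx) rfl

theorem good_sigmaCompact : Good sigmaCompactSets := by
  rintro A ⟨B, ⟨K, hK, rfl⟩, hAB⟩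
  refine ⟨⋃ n, K n, MeasurableSet.iUnion fun n ↦ (hK n).isClosed.measurableSet, hAB,
    fun hc ↦ ?_⟩
  have h1 : ∀ n j, ∃ b, ∀ x ∈ K n, x j ≤ b := by
    intro n j
    have h2 : IsCompact ((fun x : ℕ → ℕ ↦ x j) '' K n) := (hK n).image (continuous_apply j)
    obtain ⟨b, hb⟩ := (isCompact_iff_finite.1 h2).bddAbove
    exact ⟨b, fun x hx ↦ hb ⟨x, hx, rfl⟩⟩
  choose b hb using h1
  let w : ℕ → ℕ := fun j ↦ 1 + ∑ n ∈ Finset.range (j + 1), b n j
  have h2 : ∀ z : ℕ → ℕ, (fun j ↦ w j + z j) ∈ (⋃ n, K n)ᶜ := by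
    intro z hz
    obtain ⟨n, hn⟩ := mem_iUnion.1 hz
    have h3 := hb n n _ hn
    have h4 : b n n ≤ ∑ i ∈ Finset.range (n + 1), b i n :=
      Finset.single_le_sum (f := fun i ↦ b i n) (fun i _ ↦ Nat.zero_le _)
        (Finset.mem_range.2 (Nat.lt_succ_self n))
    have h5 : w n + z n ≤ b n n := h3
    have h6 : w n = 1 + ∑ i ∈ Finset.range (n + 1), b i n := rfl
    omega
  have h3 : Function.Injective (fun (z : ℕ → ℕ) (j : ℕ) ↦ w j + z j) := by
    intro z z' h
    funext j
    have := congrFun h j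
    simpa using this
  have h4 : (range (fun (z : ℕ → ℕ) (j : ℕ) ↦ w j + z j)).Countable :=
    hc.mono (by rintro _ ⟨z, rfl⟩; exact h2 z)
  rw [← image_univ] at h4
  exact not_countable_baire (Set.countable_of_injective_of_countable_image h3.injOn h4)

theorem IsNMK.good {I : Set (Set (ℕ → ℕ))} (h : IsNMK I) : Good I := by
  rcases h with ⟨m, h1, h2, rfl⟩ | rfl | rfl
  · exact good_null m h2
  · exact good_meager
  · exact good_sigmaCompact

theorem IsNMK.empty_mem {I : Set (Set (ℕ → ℕ))} (h : IsNMK I) : ∅ ∈ I := by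
  rcases h with ⟨m, h1, h2, rfl⟩ | rfl | rfl
  · exact MeasureTheory.measure_empty
  · exact IsMeagre.empty
  · exact ⟨∅, isSigmaCompact_empty, subset_rfl⟩

/-- The Borel sets with uncountable complement. -/
def CoBig : Type := {B : Set (ℕ → ℕ) // MeasurableSet B ∧ ¬ (Bᶜ).Countable}

theorem mk_coBig_le : #CoBig ≤ 𝔠 := by
  have h1 : #{B : Set (ℕ → ℕ) | MeasurableSet B} ≤ 𝔠 := by
    have h2 := MeasurableSpace.cardinal_measurableSet_le_continuum
      (α := ℕ → ℕ) (s := MeasurableSpace.countableGeneratingSet (ℕ → ℕ))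
      ((MeasurableSpace.countable_countableGeneratingSet (α := ℕ → ℕ)).le_aleph0.trans
        aleph0_le_continuum)
    rw [MeasurableSpace.generateFrom_countableGeneratingSet] at h2
    exact h2
  refine le_trans ?_ h1
  refine Cardinal.mk_le_of_injective (f := fun B : CoBig ↦
    (⟨B.1, B.2.1⟩ : {B : Set (ℕ → ℕ) | MeasurableSet B})) ?_
  intro B B' h
  exact Subtype.ext (congrArg (fun x ↦ x.1) h)

theorem mk_compl_coBig (B : CoBig) : #(B.1ᶜ : Set (ℕ → ℕ)) = 𝔠 := by
  have h1 : StandardBorelSpace (B.1ᶜ : Set (ℕ → ℕ)) := B.2.1.compl.standardBorel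
  have h2 : ¬ Countable (B.1ᶜ : Set (ℕ → ℕ)) := fun h ↦ B.2.2 (countable_coe_iff.1 h)
  have h3 := (PolishSpace.measurableEquivNatBoolOfNotCountable h2).toEquiv
  rw [Cardinal.mk_congr h3, ← power_def, mk_nat, mk_bool, two_power_aleph0]

/-- Injective selection. -/
theorem exists_injective_choice {L Y : Type} (S : L → Set Y) (h : ∀ l, #L ≤ #(S l)) :
    ∃ f : L → Y, Function.Injective f ∧ ∀ l, f l ∈ S l := by
  classical
  obtain ⟨e⟩ := Cardinal.eq.1 (show #L = #(#L).ord.ToType by rw [mk_ord_toType])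
  let T := (#L).ord.ToType
  have h1 : ∀ (t : T) (ih : ∀ s : T, s < t → Y), ∃ y ∈ S (e.symm t),
      ∀ s (hs : s < t), ih s hs ≠ y := by
    intro t ih
    by_contra hc
    push Not at hc
    have h2 : S (e.symm t) ⊆ range (fun s : Iio t ↦ ih s.1 s.2) := by
      intro y hy
      obtain ⟨s, hs, hsy⟩ := hc y hy
      exact ⟨⟨s, hs⟩, hsy⟩
    have h3 : #(S (e.symm t)) ≤ #(Iio t) := (mk_le_mk_of_subset h2).trans mk_range_le
    have h4 : #(Iio t) < #L := by
      have h5 := mk_Iio_lt (α := (#L).ord.ToType) t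
      simpa using h5
    exact absurd ((h _).trans h3) (not_le.2 h4)
  choose F hF hF' using h1
  let g : T → Y := wellFounded_lt.fix F
  have hg : ∀ t, g t = F t (fun s _ ↦ g s) := fun t ↦ wellFounded_lt.fix_eq F t
  have hg1 : ∀ t, g t ∈ S (e.symm t) := fun t ↦ by rw [hg t]; exact hF _ _
  have hg2 : ∀ s t, s < t → g s ≠ g t := fun s t hst ↦ by
    rw [hg t]
    exact hF' t (fun s _ ↦ g s) s hst
  refine ⟨fun l ↦ g (e l), fun l l' hl ↦ ?_, fun l ↦ ?_⟩
  · rcases lt_trichotomy (e l) (e l') with h5 | h5 | h5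
    · exact absurd hl (hg2 _ _ h5)
    · exact e.injective h5
    · exact absurd hl.symm (hg2 _ _ h5)
  · have := hg1 (e l)
    rwa [Equiv.symm_apply_apply] at this

/-- Points outside of all Borel sets with uncountable complement, chosen injectively. -/
theorem exists_points {P : Type} (hP : #P ≤ 𝔠) :
    ∃ x : CoBig × P → (ℕ → ℕ), Function.Injective x ∧ ∀ B p, x (B, p) ∉ B.1 := by
  obtain ⟨f, hf, hf'⟩ := exists_injective_choice (L := CoBig × P)
    (fun q ↦ (q.1.1ᶜ : Set (ℕ → ℕ))) (by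
      intro q
      rw [mk_compl_coBig, mk_prod, lift_id, lift_id]
      exact (mul_le_mul' mk_coBig_le hP).trans (by rw [continuum_mul_self]))
  exact ⟨f, hf, fun B p ↦ hf' (B, p)⟩

end Pool.Agent.MP531
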