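import Pool.Agent.Lib.MP_531aff_lc.Core

/-!
The coloring and the catching property for successor cardinals.
-/

open Cardinal Set

namespace Pool.Agent.MP531

/-- The initial ordinal of a cardinal as a type. -/
abbrev KT (μ : Cardinal.{0}) : Type := μ.ord.ToType

section

variable {μ : Cardinal.{0}}

theorem bdd_succ (hμ : ℵ₀ ≤ μ) : Bdd (KT (Order.succ μ)) μ := fun S hS ↦
  bdd_of_regular (isRegular_succ hμ) S (Order.lt_succ_of_le hS)

theorem mk_Iic_succ (hμ : ℵ₀ ≤ μ) (a : KT (Order.succ μ)) : #(Iic a) ≤ μ := by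
  have h1 : #(Iio a) ≤ μ := Order.lt_succ_iff.1 (by simpa using mk_Iio_lt a)
  rw [← Iio_insert]
  refine (mk_insert_le).trans ?_
  exact (add_le_add h1 (one_le_aleph0.trans hμ)).trans (by rw [add_eq_self hμ])

theorem mk_Iic_lt (hμ : ℵ₀ ≤ μ) (m : KT μ) : #(Iic m) < μ := by
  have h1 : #(Iio m) < μ := by simpa using mk_Iio_lt m
  rw [← Iio_insert]
  exact (mk_insert_le).trans_lt (add_lt_of_lt hμ h1 (one_lt_aleph0.trans_le hμ))

theorem nonempty_KT (hμ : ℵ₀ ≤ μ) : Nonempty (KT μ) := by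
  have h1 : #(KT μ) ≠ 0 := by
    rw [mk_ord_toType]
    exact (aleph0_pos.trans_le hμ).ne'
  exact mk_ne_zero_iff.1 h1

theorem exists_emb (hμ : ℵ₀ ≤ μ) (a : KT (Order.succ μ)) : Nonempty (Iic a ↪ KT μ) := by
  refine (Cardinal.le_def _ _).1 ?_
  rw [mk_ord_toType]
  exact mk_Iic_succ hμ a

theorem exists_rho (hμ : ℵ₀ ≤ μ) : ∃ ρ : KT (Order.succ μ) → KT (Order.succ μ) → KT μ,
    ∀ a x y, x < a → y < a → ρ a x = ρ a y → x = y := by
  classical
  have : Nonempty (KT μ) := nonempty_KT hμ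
  let ι : ∀ a : KT (Order.succ μ), (Iic a ↪ KT μ) := fun a ↦ (exists_emb hμ a).some
  refine ⟨fun a x ↦ if h : x ≤ a then ι a ⟨x, h⟩ else Classical.arbitrary _,
    fun a x y hx hy h ↦ ?_⟩
  simp only [dif_pos hx.le, dif_pos hy.le] at h
  exact congrArg Subtype.val ((ι a).injective h)

theorem exists_e (hμ : ℵ₀ ≤ μ) : ∃ e : KT (Order.succ μ) → KT μ → KT (Order.succ μ),
    ∀ a x, x ≤ a → ∃ m, e a m = x := by
  classical
  let ι : ∀ a : KT (Order.succ μ), (Iic a ↪ KT μ) := fun a ↦ (exists_emb hμ a).some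
  have hne : ∀ a : KT (Order.succ μ), Nonempty (Iic a) := fun a ↦ ⟨⟨a, mem_Iic.2 le_rfl⟩⟩
  refine ⟨fun a m ↦ (Function.invFun (ι a) m).1, fun a x hx ↦ ⟨ι a ⟨x, hx⟩, ?_⟩⟩
  show (Function.invFun (ι a) (ι a ⟨x, hx⟩)).1 = x
  rw [Function.leftInverse_invFun (ι a).injective]

theorem col_regular (hμ : μ.IsRegular) : Col (KT (Order.succ μ)) (KT μ) := by
  have : Nonempty (KT μ) := nonempty_KT hμ.aleph0_le
  obtain ⟨ρ, hρ⟩ := exists_rho hμ.aleph0_le
  exact col_of_regular hμ (bdd_succ hμ.aleph0_le) (by rw [mk_ord_toType])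
    (mk_Iic_lt hμ.aleph0_le) ρ hρ

theorem col_countable (hμ : ℵ₀ ≤ μ) (hcof : μ.ord.cof = ℵ₀)
    (hc : Order.succ μ ^ ℵ₀ = Order.succ μ) : Col (KT (Order.succ μ)) (KT μ) := by
  rcases eq_or_lt_of_le hμ with h0 | h0
  · refine col_regular ?_
    rw [← h0]
    exact isRegular_aleph0
  have : Nonempty (KT μ) := nonempty_KT hμ
  have : Nonempty (KT (Order.succ μ)) := nonempty_KT (hμ.trans (Order.le_succ μ))
  obtain ⟨ρ, hρ⟩ := exists_rho hμ
  obtain ⟨e, he⟩ := exists_e hμ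
  obtain ⟨S, hS, hSc⟩ := Order.exists_cof_eq (α := KT μ)
  rw [Ordinal.cof_toType, hcof] at hSc
  have hSne : S.Nonempty := by
    rw [nonempty_iff_ne_empty]
    rintro rfl
    rw [mk_eq_zero] at hSc
    exact aleph0_ne_zero hSc.symm
  have hScount : S.Countable := by
    rw [← Cardinal.le_aleph0_iff_set_countable]
    exact hSc.le
  obtain ⟨t, ht⟩ := hScount.exists_eq_range hSne
  let N : ℕ → Set (KT μ) := fun n ↦ {m | ∃ k ≤ n, m ≤ t k}
  have hN : Monotone N := fun n n' h m ⟨k, hk, hm⟩ ↦ ⟨k, hk.trans h, hm⟩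
  have hNu : ⋃ n, N n = Set.univ := by
    refine eq_univ_of_forall fun m ↦ ?_
    obtain ⟨y, hy, hmy⟩ := hS m
    rw [ht] at hy
    obtain ⟨k, rfl⟩ := hy
    exact mem_iUnion.2 ⟨k, k, le_rfl, hmy⟩
  have hNlt : ∀ n, #(N n) < μ := by
    intro n
    induction n with
    | zero =>
      refine lt_of_le_of_lt (mk_le_mk_of_subset ?_) (mk_Iic_lt hμ (t 0))
      rintro m ⟨k, hk, hm⟩
      have : k = 0 := Nat.le_zero.1 hk
      rw [this] at hm
      exact hm
    | succ n ih =>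
      refine lt_of_le_of_lt (mk_le_mk_of_subset (t := N n ∪ Iic (t (n + 1))) ?_)
        ((mk_union_le _ _).trans_lt (add_lt_of_lt hμ ih (mk_Iic_lt hμ _)))
      rintro m ⟨k, hk, hm⟩
      rcases Nat.lt_or_ge n k with h | h
      · have : k = n + 1 := le_antisymm hk h
        rw [this] at hm
        exact Or.inr hm
      · exact Or.inl ⟨k, h, hm⟩
  have hs : ∃ s : KT (Order.succ μ) → ℕ → KT (Order.succ μ), Function.Surjective s := by
    have h1 : #(ℕ → KT (Order.succ μ)) = #(KT (Order.succ μ)) := by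
      rw [← power_def, mk_nat, mk_ord_toType, hc]
    obtain ⟨f⟩ := Cardinal.eq.1 h1
    exact ⟨f.symm, f.symm.surjective⟩
  obtain ⟨s, hs⟩ := hs
  exact col_of_cof_countable hμ (bdd_succ hμ) (by rw [mk_ord_toType]) N hN hNu
    (fun n ↦ max ℵ₀ #(N n)) (fun n ↦ le_max_left _ _) (fun n ↦ max_lt h0 (hNlt n))
    (fun n ↦ le_max_right _ _) ρ hρ e (fun a x hx ↦ he a x hx.le) s hs

/-- Catching for `μ⁺` from catching for `μ`. -/
theorem catch_succ {χ : Cardinal.{0}} {X : Type} (hμ : ℵ₀ ≤ μ) (hX : Order.succ μ ≤ #X)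
    (hXχ : #X ≤ χ) (ih : ND χ X (KT μ) → Catch χ X (KT μ)) (h : ND χ X (KT (Order.succ μ))) :
    Catch χ X (KT (Order.succ μ)) := by
  have hXi : ℵ₀ ≤ #X := hμ.trans ((Order.le_succ μ).trans hX)
  have : Nonempty X := mk_ne_zero_iff.1 (aleph0_pos.trans_le hXi).ne'
  have : Nonempty (KT μ) := nonempty_KT hμ
  obtain ⟨ρ, hρ⟩ := exists_rho hμ
  obtain ⟨e, he⟩ := exists_e hμ
  have h1 : #(X × KT (Order.succ μ)) = #X := by
    rw [mk_prod, lift_id, lift_id, mk_ord_toType]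
    exact Cardinal.mul_eq_left hXi hX (aleph0_pos.trans_le (hμ.trans (Order.le_succ μ))).ne'
  obtain ⟨e1⟩ := Cardinal.eq.1 h1
  have h2 : #(X × X) = #X := by
    rw [mk_prod, lift_id, mul_eq_self hXi]
  obtain ⟨e2⟩ := Cardinal.eq.1 h2
  exact (catch_step e (fun a x hx ↦ he a x hx.le) (hXi.trans hXχ) hXχ h
    (ih ((nd_down (bdd_succ hμ) (mk_Iic_lt hμ) ρ hρ h).congr e1))).congr e2

theorem catch_aleph {χ : Cardinal.{0}} {X : Type} (hXχ : #X ≤ χ) (n : ℕ)
    (hX : ℵ_ (n : Ordinal) ≤ #X) (h : ND χ X (KT (ℵ_ (n : Ordinal)))) :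
    Catch χ X (KT (ℵ_ (n : Ordinal))) := by
  induction n with
  | zero =>
    intro D _
    refine ⟨fun _ ↦ Set.univ, fun _ ↦ ?_, fun g _ ↦ ?_⟩
    · rw [← Cardinal.le_aleph0_iff_set_countable, mk_univ, mk_ord_toType]
      simp
    · have : Nonempty X := by
        refine mk_ne_zero_iff.1 (ne_of_gt (lt_of_lt_of_le ?_ hX))
        exact aleph0_pos.trans_le (aleph0_le_aleph _)
      exact ⟨Classical.arbitrary X, mem_univ _⟩
  | succ n ih =>
    have h1 : ℵ_ ((n + 1 : ℕ) : Ordinal) = Order.succ (ℵ_ (n : Ordinal)) := by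
      rw [succ_aleph]
      norm_cast
    rw [h1] at hX h ⊢
    exact catch_succ (aleph0_le_aleph _) hX hXχ (ih ((Order.le_succ _).trans hX)) h

/-- Catching for functions from a set of size `μ⁺` to `μ⁺`. -/
theorem catch_self {χ : Cardinal.{0}} {X : Type} (hμ : ℵ₀ ≤ μ) (hX : #X = Order.succ μ)
    (hXχ : #X ≤ χ) (hcol : Col (KT (Order.succ μ)) (KT μ)) (h : ND χ X (KT (Order.succ μ))) :
    Catch χ X (KT (Order.succ μ)) := by
  have hμ' : ℵ₀ ≤ Order.succ μ := hμ.trans (Order.le_succ μ)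
  have : Nonempty (KT μ) := nonempty_KT hμ
  have : Nonempty (KT (Order.succ μ)) := nonempty_KT hμ'
  obtain ⟨e, he⟩ := exists_e hμ
  obtain ⟨e1⟩ := Cardinal.eq.1 (show #X = #(KT (Order.succ μ)) by rw [hX, mk_ord_toType])
  obtain ⟨e2⟩ := Cardinal.eq.1 (show #(KT (Order.succ μ) × KT (Order.succ μ)) = #X by
    rw [mk_prod, lift_id, mk_ord_toType, hX, mul_eq_self hμ'])
  exact (catch_of_col (bdd_succ hμ) (by rw [mk_ord_toType]) (mk_Iic_succ hμ) hcol e
    (fun a x hx ↦ he a x hx.le) (hμ'.trans (hX ▸ hXχ)) (by rw [mk_ord_toType, ← hX]; exact hXχ)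
    (h.congr e1)).congr e2

end

end Pool.Agent.MP531
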