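import Pool.Agent.Lib.MP_531aff_lc.Inst
import Pool.Agent.Lib.MP_531aff_lc.Ideals

/-!
The comparison of the bounding and the dominating numbers.
-/

open Cardinal Set Filter Topology

namespace Pool.Agent.MP531

/-- `z` agrees with `g` infinitely often on each of the infinitely many columns. -/
def Cat (z g : ℕ → ℕ) : Prop := ∀ n, ∃ᶠ k in atTop, (Nat.unpair k).1 = n ∧ z k = g k

theorem cat_self (g : ℕ → ℕ) : Cat g g := by
  intro n
  rw [frequently_atTop]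
  intro a
  exact ⟨Nat.pair n a, Nat.right_le_pair n a, by simp, rfl⟩

theorem exists_comb {K : Type} (z : K → ℕ → ℕ) (S : Set K) (hS : S.Countable) :
    ∃ f : ℕ → ℕ, ∀ i ∈ S, ∀ g, Cat (z i) g → ¬ EvDiff f g := by
  rcases S.eq_empty_or_nonempty with rfl | hne
  · exact ⟨0, fun i hi ↦ absurd hi (notMem_empty i)⟩
  · obtain ⟨s, rfl⟩ := hS.exists_eq_range hne
    refine ⟨fun k ↦ z (s (Nat.unpair k).1) k, ?_⟩
    rintro _ ⟨n, rfl⟩ g hg
    rw [EvDiff, not_eventually]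
    refine (hg n).mono fun k hk ↦ ?_
    rw [not_not, hk.1]
    exact hk.2

theorem isMeagre_not_cat (g : ℕ → ℕ) : IsMeagre {y | ¬ Cat y g} := by
  have h1 : {y | ¬ Cat y g}ᶜ ∈ residual (ℕ → ℕ) := by
    have h2 : ∀ n N : ℕ, ∀ᶠ y : ℕ → ℕ in residual (ℕ → ℕ),
        ∃ k, N ≤ k ∧ (Nat.unpair k).1 = n ∧ y k = g k := by
      intro n N
      refine residual_of_dense_open (s := {y : ℕ → ℕ | ∃ k, N ≤ k ∧ (Nat.unpair k).1 = n ∧ y k = g k}) ?_ ?_
      · have h3 : {y : ℕ → ℕ | ∃ k, N ≤ k ∧ (Nat.unpair k).1 = n ∧ y k = g k} =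
            ⋃ k : ℕ, {y : ℕ → ℕ | N ≤ k ∧ (Nat.unpair k).1 = n ∧ y k = g k} := by
          ext y
          simp
        rw [h3]
        refine isOpen_iUnion fun k ↦ ?_
        by_cases hk : N ≤ k ∧ (Nat.unpair k).1 = n
        · have h4 : {y : ℕ → ℕ | N ≤ k ∧ (Nat.unpair k).1 = n ∧ y k = g k} =
              (fun y : ℕ → ℕ ↦ y k) ⁻¹' {g k} := by
            ext y
            simp [hk.1, hk.2]
          rw [h4]
          exact (isOpen_discrete _).preimage (continuous_apply k)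
        · have h4 : {y : ℕ → ℕ | N ≤ k ∧ (Nat.unpair k).1 = n ∧ y k = g k} = ∅ := by
            ext y
            simp only [mem_ofPred_eq, mem_empty_iff_false, iff_false]
            exact fun h ↦ hk ⟨h.1, h.2.1⟩
          rw [h4]
          exact isOpen_empty
      · intro y
        refine mem_closure_of_tendsto (tendsto_update y (fun m ↦ Nat.pair n (m + N))
          (fun m ↦ (Nat.le_add_right m N).trans (Nat.right_le_pair n _))
          (fun m ↦ g (Nat.pair n (m + N)))) (Eventually.of_forall fun m ↦ ?_)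
        exact ⟨Nat.pair n (m + N), (Nat.le_add_left N m).trans (Nat.right_le_pair n _),
          by simp, by rw [Function.update_self]⟩
    have h5 : ∀ᶠ y : ℕ → ℕ in residual (ℕ → ℕ), ∀ n N : ℕ,
        ∃ k, N ≤ k ∧ (Nat.unpair k).1 = n ∧ y k = g k := by
      rw [eventually_countable_forall]
      intro n
      rw [eventually_countable_forall]
      exact h2 n
    refine mem_of_superset h5 fun y hy ↦ ?_
    intro hc
    refine hc fun n ↦ ?_
    rw [frequently_atTop]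
    intro N
    obtain ⟨k, h6, h7, h8⟩ := hy n N
    exact ⟨k, h6, h7, h8⟩
  exact h1

/-- Transfer of a dominating family. -/
theorem dom_transfer {χ : Cardinal.{0}} {X Y K : Type} [LinearOrder K] [Nonempty K]
    (hXY : #X ≤ #Y)
    (h : ∃ H : Set (Y → K), #H ≤ χ ∧ ∀ f : Y → K, ∃ g ∈ H, ∀ x, f x ≤ g x) :
    ∃ H : Set (X → K), #H ≤ χ ∧ ∀ f : X → K, ∃ g ∈ H, ∀ x, f x ≤ g x := by
  classical
  obtain ⟨ι⟩ := Cardinal.le_def _ _ |>.1 hXY
  obtain ⟨H, hH, hH'⟩ := h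
  refine ⟨(fun g ↦ g ∘ ι) '' H, mk_image_le.trans hH, fun f ↦ ?_⟩
  obtain ⟨g, hg, hfg⟩ := hH' (Function.extend ι f fun _ ↦ Classical.arbitrary K)
  refine ⟨g ∘ ι, ⟨g, hg, rfl⟩, fun x ↦ ?_⟩
  have := hfg (ι x)
  rwa [ι.injective.extend_apply] at this

/-- The main comparison. -/
theorem bNum_le_dNum {μ : Cardinal.{0}} (hμ : ℵ₀ ≤ μ) (hμc : Order.succ μ ≤ 𝔠)
    (z : KT (Order.succ μ) → ℕ → ℕ) (hz : ∀ g, ∃ i, Cat (z i) g)
    (hcol : Col (KT (Order.succ μ)) (KT μ))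
    (hcatch : ∀ χ : Cardinal.{0}, 𝔠 ≤ χ → ND χ (ℕ → ℕ) (KT (Order.succ μ)) →
      Catch χ (ℕ → ℕ) (KT (Order.succ μ)))
    {I J : Set (Set (ℕ → ℕ))} (hI : Good I) (hJ : Good J) (hJ0 : ∅ ∈ J) :
    bNum (NeMod I) ≤ dNum (NeMod J) := by
  classical
  have hμ' : ℵ₀ ≤ Order.succ μ := hμ.trans (Order.le_succ μ)
  have : Nonempty (KT (Order.succ μ)) := nonempty_KT hμ'
  choose idx hidx using hz
  -- a dominating family of least cardinality
  have hne : {κ | ∃ A : Set ((ℕ → ℕ) → (ℕ → ℕ)), #A = κ ∧ ∀ x, ∃ y ∈ A, NeMod J x y}.Nonempty := by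
    refine ⟨_, Set.univ, rfl, fun x ↦ ⟨fun r k ↦ x r k + 1, mem_univ _, ?_⟩⟩
    have h1 : {r : ℕ → ℕ | ¬ EvDiff (x r) (fun k ↦ x r k + 1)} = ∅ := by
      ext r
      simp only [mem_ofPred_eq, mem_empty_iff_false, iff_false, not_not]
      exact Eventually.of_forall fun k ↦ (Nat.succ_ne_self _).symm
    show {r : ℕ → ℕ | ¬ EvDiff (x r) (fun k ↦ x r k + 1)} ∈ J
    rw [h1]
    exact hJ0
  obtain ⟨D, hD, hD'⟩ := csInf_mem hne
  have hD0 : #D = dNum (NeMod J) := hD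
  rw [← hD0]
  -- the family gives a dominating family of functions to `μ⁺`
  have key : ¬ ND (max #D 𝔠) (ℕ → ℕ) (KT (Order.succ μ)) := by
    intro hnd
    have hc := hcatch _ (le_max_right _ _) hnd
    obtain ⟨x, hx, hx'⟩ := exists_points (P := ℕ → ℕ) mk_baire.le
    obtain ⟨F, hF, hF'⟩ := hc (⋃ B : CoBig, (fun (g : (ℕ → ℕ) → (ℕ → ℕ)) (p : ℕ → ℕ) ↦
      idx (g (x (B, p)))) '' D) (by
        refine (mk_iUnion_le _).trans ?_
        refine (mul_le_mul' (mk_coBig_le.trans (le_max_right #D 𝔠)) (ciSup_le' fun B ↦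
          mk_image_le.trans (le_max_left #D 𝔠))).trans ?_
        rw [mul_eq_self (aleph0_le_continuum.trans (le_max_right _ _))])
    choose comb hcomb using fun p ↦ exists_comb z (F p) (hF p)
    obtain ⟨g, hg, hfg⟩ := hD' (fun y ↦ if h : ∃ q, x q = y then comb h.choose.2 else 0)
    obtain ⟨B, hB, hAB, hBc⟩ := hJ _ hfg
    obtain ⟨p, hp⟩ := hF' _ (mem_iUnion.2 ⟨⟨B, hB, hBc⟩, g, hg, rfl⟩)
    refine hx' ⟨B, hB, hBc⟩ p (hAB ?_)
    have h1 : ∃ q, x q = x (⟨B, hB, hBc⟩, p) := ⟨_, rfl⟩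
    have h2 : h1.choose = (⟨B, hB, hBc⟩, p) := hx h1.choose_spec
    show ¬ EvDiff (if h : ∃ q, x q = x (⟨B, hB, hBc⟩, p) then comb h.choose.2 else 0)
      (g (x (⟨B, hB, hBc⟩, p)))
    rw [dif_pos h1, h2]
    exact hcomb p _ hp _ (hidx _)
  have hDc : 𝔠 < #D := by
    by_contra hc
    rw [max_eq_right (not_lt.1 hc)] at key
    refine key (nd_diag (fun y ↦ ?_) mk_baire.ge)
    obtain ⟨b, hb⟩ := bdd_succ hμ {y} (by
      rw [mk_singleton]; exact one_le_aleph0.trans hμ)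
    exact ⟨b, hb y rfl⟩
  rw [max_eq_left hDc.le] at key
  have key' : ∃ H : Set ((ℕ → ℕ) → KT (Order.succ μ)), #H ≤ #D ∧
      ∀ f : (ℕ → ℕ) → KT (Order.succ μ), ∃ g ∈ H, ∀ x, f x ≤ g x := by
    simp only [ND] at key
    push Not at key
    exact key
  obtain ⟨H₁, hH₁, hH₁'⟩ := dom_transfer (X := CoBig) (by rw [mk_baire]; exact mk_coBig_le) key'
  obtain ⟨H₂, hH₂, hH₂'⟩ := dom_transfer (X := CoBig × KT (Order.succ μ)) (by
    rw [mk_baire, mk_prod, lift_id, lift_id, mk_ord_toType]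
    exact (mul_le_mul' mk_coBig_le hμc).trans (by rw [continuum_mul_self])) key'
  obtain ⟨e, he⟩ := exists_e hμ
  obtain ⟨F, hF, hF'⟩ := exists_cover (bdd_succ hμ) (by rw [mk_ord_toType]) hcol e he
    H₁ hH₁' H₂ hH₂'
  obtain ⟨x, hx, hx'⟩ := exists_points (P := KT (Order.succ μ)) (by
    rw [mk_ord_toType]; exact hμc)
  choose comb hcomb using fun p q ↦ exists_comb z (F p q) (hF p q)
  let f : H₁ × H₂ → (ℕ → ℕ) → (ℕ → ℕ) := fun p y ↦
    if h : ∃ q, x q = y then comb p h.choose else 0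
  refine (csInf_le' (s := {κ | ∃ A : Set ((ℕ → ℕ) → (ℕ → ℕ)), #A = κ ∧
    ¬ ∃ x, ∀ y ∈ A, NeMod I y x}) ⟨range f, rfl, ?_⟩).trans ?_
  · rintro ⟨g, hg⟩
    obtain ⟨p, hp⟩ := hF' fun q ↦ idx (g (x q))
    obtain ⟨B, hB, hAB, hBc⟩ := hI _ (hg (f p) ⟨p, rfl⟩)
    obtain ⟨δ, hδ⟩ := hp ⟨B, hB, hBc⟩
    refine hx' ⟨B, hB, hBc⟩ δ (hAB ?_)
    have h1 : ∃ q, x q = x (⟨B, hB, hBc⟩, δ) := ⟨_, rfl⟩
    have h2 : h1.choose = (⟨B, hB, hBc⟩, δ) := hx h1.choose_spec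
    show ¬ EvDiff (if h : ∃ q, x q = x (⟨B, hB, hBc⟩, δ) then comb p h.choose else 0)
      (g (x (⟨B, hB, hBc⟩, δ)))
    rw [dif_pos h1, h2]
    exact hcomb p _ _ hδ _ (hidx _)
  · refine mk_range_le.trans ?_
    rw [mk_prod, lift_id, lift_id]
    exact (mul_le_mul' hH₁ hH₂).trans (by
      rw [mul_eq_self (aleph0_le_continuum.trans hDc.le)])

/-- An enumeration of all reals in type `𝔠`. -/
theorem exists_z_continuum {κ : Cardinal.{0}} (hκ : κ = 𝔠) :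
    ∃ z : KT κ → ℕ → ℕ, ∀ g, ∃ i, Cat (z i) g := by
  obtain ⟨e⟩ := Cardinal.eq.1 (show #(KT κ) = #(ℕ → ℕ) by rw [mk_ord_toType, mk_baire, hκ])
  exact ⟨e, fun g ↦ ⟨e.symm g, by rw [e.apply_symm_apply]; exact cat_self g⟩⟩

/-- An enumeration of a nonmeager set. -/
theorem exists_z_nonMeager {κ : Cardinal.{0}} (hκ : nonMeager = κ) (hκ0 : κ ≠ 0) :
    ∃ z : KT κ → ℕ → ℕ, ∀ g, ∃ i, Cat (z i) g := by
  have hne : {κ | ∃ A : Set (ℕ → ℕ), #A = κ ∧ ¬ IsMeagre A}.Nonempty := by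
    by_contra hc
    rw [not_nonempty_iff_eq_empty] at hc
    refine hκ0 ?_
    rw [← hκ, nonMeager, hc, Cardinal.sInf_empty]
  obtain ⟨A, hA, hA'⟩ := csInf_mem hne
  have hA0 : #A = κ := by rw [← hκ]; exact hA
  obtain ⟨e⟩ := Cardinal.eq.1 (show #(KT κ) = #A by rw [mk_ord_toType, hA0])
  refine ⟨fun i ↦ (e i).1, fun g ↦ ?_⟩
  by_contra hc
  push Not at hc
  refine hA' ((isMeagre_not_cat g).mono fun y hy ↦ ?_)
  have := hc (e.symm ⟨y, hy⟩)
  rwa [e.apply_symm_apply] at this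

end Pool.Agent.MP531
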