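import Pool.Agent.Lib.MP_531aff_lc.Strict

/-!
In the presence of a set of `𝔠` many reals such that every real is infinitely often equal to only
countably many of them, the bounding and the dominating numbers are combinatorial cardinals.
-/

open Cardinal Set Filter Topology

namespace Pool.Agent.MP531

/-- The least size of a family `D` of functions from the Baire space to itself such that for every
function `F` with countable sets as values some `g` in `D` satisfies `g x ∉ F x` for all `x`. -/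
noncomputable def avoidNum : Cardinal.{0} :=
  sInf {κ | ∃ D : Set ((ℕ → ℕ) → (ℕ → ℕ)), #D = κ ∧
    ∀ F : (ℕ → ℕ) → Set (ℕ → ℕ), (∀ x, (F x).Countable) → ∃ g ∈ D, ∀ x, g x ∉ F x}

/-- The least size of a family `C` of functions `F` with countable sets as values such that for
every `g` the set of all `x` with `g x ∈ F x` is not in `I` for some `F` in `C`. -/
noncomputable def catchNum (I : Set (Set (ℕ → ℕ))) : Cardinal.{0} :=
  sInf {κ | ∃ C : Set ((ℕ → ℕ) → Set (ℕ → ℕ)), #C = κ ∧ (∀ F ∈ C, ∀ x, (F x).Countable) ∧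
    ∀ g : (ℕ → ℕ) → (ℕ → ℕ), ∃ F ∈ C, {x | g x ∈ F x} ∉ I}

theorem IsNMK.mono {I : Set (Set (ℕ → ℕ))} (h : IsNMK I) {A B : Set (ℕ → ℕ)} (hA : A ∈ I)
    (hBA : B ⊆ A) : B ∈ I := by
  rcases h with ⟨m, h1, h2, rfl⟩ | rfl | rfl
  · exact MeasureTheory.measure_mono_null hBA hA
  · have hA' : IsMeagre A := hA
    exact hA'.mono hBA
  · obtain ⟨C, hC, hAC⟩ := hA
    exact ⟨C, hC, hBA.trans hAC⟩

theorem Good.univ_notMem {I : Set (Set (ℕ → ℕ))} (h : Good I) : Set.univ ∉ I := by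
  intro h1
  obtain ⟨B, _, hB, hB'⟩ := h _ h1
  refine hB' ?_
  rw [univ_subset_iff.1 hB, compl_univ]
  exact countable_empty

theorem exists_comb_set (S : Set (ℕ → ℕ)) (hS : S.Countable) :
    ∃ f : ℕ → ℕ, ∀ g ∈ S, ¬ EvDiff f g := by
  obtain ⟨f, hf⟩ := exists_combc id S hS
  exact ⟨f, fun g hg ↦ hf g hg g (catc_self g)⟩

section

variable (r : (ℕ → ℕ) → (ℕ → ℕ)) (hr : ∀ z, {y | ¬ EvDiff z (r y)}.Countable)

include hr

theorem bNum_eq_catchNum {I : Set (Set (ℕ → ℕ))} (hI : IsNMK I) :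
    bNum (NeMod I) = catchNum I := by
  refine le_antisymm ?_ ?_
  · have hne : {κ | ∃ C : Set ((ℕ → ℕ) → Set (ℕ → ℕ)), #C = κ ∧ (∀ F ∈ C, ∀ x, (F x).Countable) ∧
        ∀ g : (ℕ → ℕ) → (ℕ → ℕ), ∃ F ∈ C, {x | g x ∈ F x} ∉ I}.Nonempty := by
      refine ⟨_, range fun (g : (ℕ → ℕ) → (ℕ → ℕ)) (x : ℕ → ℕ) ↦ ({g x} : Set (ℕ → ℕ)), rfl,
        ?_, fun g ↦ ⟨_, ⟨g, rfl⟩, ?_⟩⟩
      · rintro _ ⟨g, rfl⟩ x
        exact countable_singleton _
      · have h1 : {x | g x ∈ ({g x} : Set (ℕ → ℕ))} = Set.univ :=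
          eq_univ_of_forall fun x ↦ mem_singleton _
        rw [h1]
        exact hI.good.univ_notMem
    obtain ⟨C, hC, hC1, hC2⟩ := csInf_mem hne
    have hC0 : #C = catchNum I := hC
    rw [← hC0]
    choose comb hcomb using fun (F : C) (x : ℕ → ℕ) ↦ exists_comb_set (F.1 x) (hC1 F.1 F.2 x)
    refine (csInf_le' (s := {κ | ∃ A : Set ((ℕ → ℕ) → (ℕ → ℕ)), #A = κ ∧
      ¬ ∃ x, ∀ y ∈ A, NeMod I y x}) ⟨range comb, rfl, ?_⟩).trans mk_range_le
    rintro ⟨g, hg⟩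
    obtain ⟨F, hF, hF'⟩ := hC2 g
    refine hF' (hI.mono (hg _ ⟨⟨F, hF⟩, rfl⟩) fun x hx ↦ ?_)
    exact hcomb ⟨F, hF⟩ x (g x) hx
  · have hne : {κ | ∃ A : Set ((ℕ → ℕ) → (ℕ → ℕ)), #A = κ ∧
        ¬ ∃ x, ∀ y ∈ A, NeMod I y x}.Nonempty := by
      refine ⟨_, Set.univ, rfl, ?_⟩
      rintro ⟨g, hg⟩
      have h1 : {x | ¬ EvDiff (g x) (g x)} ∈ I := hg g (mem_univ _)
      have h2 : {x | ¬ EvDiff (g x) (g x)} = Set.univ := by
        refine eq_univ_of_forall fun x hc ↦ ?_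
        obtain ⟨k, hk⟩ := hc.exists
        exact hk rfl
      rw [h2] at h1
      exact hI.good.univ_notMem h1
    obtain ⟨A, hA, hA'⟩ := csInf_mem hne
    have hA0 : #A = bNum (NeMod I) := hA
    rw [← hA0]
    let Φ : ((ℕ → ℕ) → (ℕ → ℕ)) → (ℕ → ℕ) → Set (ℕ → ℕ) := fun f x ↦
      {l | ¬ EvDiff (f x) (r l)}
    refine (csInf_le' (s := {κ | ∃ C : Set ((ℕ → ℕ) → Set (ℕ → ℕ)), #C = κ ∧
      (∀ F ∈ C, ∀ x, (F x).Countable) ∧
      ∀ g : (ℕ → ℕ) → (ℕ → ℕ), ∃ F ∈ C, {x | g x ∈ F x} ∉ I})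
      ⟨Φ '' A, rfl, ?_, fun g ↦ ?_⟩).trans mk_image_le
    · rintro _ ⟨f, _, rfl⟩ x
      exact hr _
    · by_contra hc
      push Not at hc
      exact hA' ⟨fun x ↦ r (g x), fun f hf ↦ hc _ ⟨f, hf, rfl⟩⟩

theorem dNum_eq_avoidNum {J : Set (Set (ℕ → ℕ))} (hJ : IsNMK J) :
    dNum (NeMod J) = avoidNum := by
  classical
  have hne : {κ | ∃ D : Set ((ℕ → ℕ) → (ℕ → ℕ)), #D = κ ∧
      ∀ F : (ℕ → ℕ) → Set (ℕ → ℕ), (∀ x, (F x).Countable) →
        ∃ g ∈ D, ∀ x, g x ∉ F x}.Nonempty := by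
    refine ⟨_, Set.univ, rfl, fun F hF ↦ ?_⟩
    have h1 : ∀ x, ∃ y, y ∉ F x := fun x ↦ by
      by_contra hc
      push Not at hc
      refine not_countable_baire ((hF x).mono fun y _ ↦ hc y)
    choose g hg using h1
    exact ⟨g, mem_univ _, hg⟩
  obtain ⟨E, hE, hE'⟩ := csInf_mem hne
  have hE0 : #E = avoidNum := hE
  have hEc : 𝔠 < #E := by
    by_contra hc
    have h1 : #E ≤ #(ℕ → ℕ) := by rw [mk_baire]; exact not_lt.1 hc
    obtain ⟨ι⟩ := Cardinal.le_def _ _ |>.1 h1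
    obtain ⟨g, hg, hg'⟩ := hE' (fun x ↦ if h : ∃ g : E, ι g = x then {h.choose.1 x} else ∅)
      (fun x ↦ by
        by_cases h : ∃ g : E, ι g = x
        · simp only [dif_pos h]
          exact countable_singleton _
        · simp only [dif_neg h]
          exact countable_empty)
    refine hg' (ι ⟨g, hg⟩) ?_
    have h2 : ∃ g' : E, ι g' = ι ⟨g, hg⟩ := ⟨_, rfl⟩
    have h3 : h2.choose = ⟨g, hg⟩ := ι.injective h2.choose_spec
    simp only [dif_pos h2]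
    rw [h3]
    exact mem_singleton _
  refine le_antisymm ?_ ?_
  · rw [← hE0]
    refine (csInf_le' (s := {κ | ∃ A : Set ((ℕ → ℕ) → (ℕ → ℕ)), #A = κ ∧
      ∀ x, ∃ y ∈ A, NeMod J x y}) ⟨(fun g x ↦ r (g x)) '' E, rfl, fun f ↦ ?_⟩).trans mk_image_le
    obtain ⟨g, hg, hg'⟩ := hE' (fun x ↦ {l | ¬ EvDiff (f x) (r l)}) (fun x ↦ hr _)
    refine ⟨_, ⟨g, hg, rfl⟩, ?_⟩
    have h2 : {x | ¬ EvDiff (f x) (r (g x))} = ∅ := by
      ext x
      simp only [mem_ofPred_eq, mem_empty_iff_false, iff_false]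
      exact hg' x
    show {x | ¬ EvDiff (f x) (r (g x))} ∈ J
    rw [h2]
    exact hJ.empty_mem
  · have hne' : {κ | ∃ A : Set ((ℕ → ℕ) → (ℕ → ℕ)), #A = κ ∧
        ∀ x, ∃ y ∈ A, NeMod J x y}.Nonempty := by
      refine ⟨_, Set.univ, rfl, fun x ↦ ⟨fun s k ↦ x s k + 1, mem_univ _, ?_⟩⟩
      have h1 : {s : ℕ → ℕ | ¬ EvDiff (x s) (fun k ↦ x s k + 1)} = ∅ := by
        ext s
        simp only [mem_ofPred_eq, mem_empty_iff_false, iff_false, not_not]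
        exact Eventually.of_forall fun k ↦ (Nat.succ_ne_self _).symm
      show {s : ℕ → ℕ | ¬ EvDiff (x s) (fun k ↦ x s k + 1)} ∈ J
      rw [h1]
      exact hJ.empty_mem
    obtain ⟨D, hD, hD'⟩ := csInf_mem hne'
    have hD0 : #D = dNum (NeMod J) := hD
    rw [← hD0]
    obtain ⟨x, hx, hx'⟩ := exists_points (P := ℕ → ℕ) mk_baire.le
    let D' : Set ((ℕ → ℕ) → (ℕ → ℕ)) := ⋃ B : CoBig,
      (fun (g : (ℕ → ℕ) → (ℕ → ℕ)) (p : ℕ → ℕ) ↦ g (x (B, p))) '' D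
    have h1 : #D' ≤ max #D 𝔠 := by
      refine (mk_iUnion_le _).trans ?_
      refine (mul_le_mul' (mk_coBig_le.trans (le_max_right #D 𝔠)) (ciSup_le' fun B ↦
        mk_image_le.trans (le_max_left #D 𝔠))).trans ?_
      rw [mul_eq_self (aleph0_le_continuum.trans (le_max_right _ _))]
    have h2 : avoidNum ≤ #D' := by
      refine csInf_le' ⟨D', rfl, fun F hF ↦ ?_⟩
      by_contra hc
      push Not at hc
      choose comb hcomb using fun p ↦ exists_comb_set (F p) (hF p)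
      obtain ⟨g, hg, hfg⟩ := hD' (fun y ↦ if h : ∃ q, x q = y then comb h.choose.2 else 0)
      obtain ⟨B, hB, hAB, hBc⟩ := hJ.good _ hfg
      obtain ⟨p, hp⟩ := hc _ (mem_iUnion.2 ⟨⟨B, hB, hBc⟩, g, hg, rfl⟩)
      refine hx' ⟨B, hB, hBc⟩ p (hAB ?_)
      have h1 : ∃ q, x q = x (⟨B, hB, hBc⟩, p) := ⟨_, rfl⟩
      have h2 : h1.choose = (⟨B, hB, hBc⟩, p) := hx h1.choose_spec
      show ¬ EvDiff (if h : ∃ q, x q = x (⟨B, hB, hBc⟩, p) then comb h.choose.2 else 0)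
        (g (x (⟨B, hB, hBc⟩, p)))
      rw [dif_pos h1, h2]
      exact hcomb p _ hp
    rcases le_total #D 𝔠 with h3 | h3
    · rw [max_eq_right h3] at h1
      rw [← hE0] at h2
      exact absurd (hEc.trans_le (h2.trans h1)) (lt_irrefl _)
    · rw [max_eq_left h3] at h1
      exact h2.trans h1

end

end Pool.Agent.MP531
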