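import Pool.Agent.Lib.MP_531aff_lc.Inst
import Pool.Agent.Lib.MP_531aff_lc.Ideals

/-!
Catching by sets of size less than `ρ`, and the comparison of the bounding and the dominating
numbers in terms of it.
-/

open Cardinal Set Filter Topology

namespace Pool.Agent.MP531

/-- The coloring property with colors in `M` and values of size less than `ρ`. -/
def ColR (ρ : Cardinal.{0}) (K M : Type) [LinearOrder K] : Prop :=
  ∃ G : K → K → Set M, (∀ δ η, #(G δ η) < ρ) ∧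
    ∀ A : Set K, Unb A → ∀ i : M, ∃ θ : K, ∀ η, θ ≤ η → ∃ δ ∈ A, i ∈ G δ η

/-- Every family of at most `χ` functions from `X` to `K` is caught by a function whose values
have size less than `ρ`. -/
def CatchR (ρ χ : Cardinal.{0}) (X K : Type) : Prop :=
  ∀ D : Set (X → K), #D ≤ χ →
    ∃ F : X → Set K, (∀ x, #(F x) < ρ) ∧ ∀ g ∈ D, ∃ x, g x ∈ F x

/-- `K` codes the reals in such a way that a real can be found infinitely often equal to all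
reals with codes in a given set of size less than `ρ`. -/
def Guess (ρ : Cardinal.{0}) (K : Type) : Prop :=
  ∃ idx : (ℕ → ℕ) → K, ∀ S : Set K, #S < ρ → ∃ f : ℕ → ℕ, ∀ g, idx g ∈ S → ¬ EvDiff f g

theorem Col.colR {K M : Type} [LinearOrder K] {ρ : Cardinal.{0}} (hρ : ℵ₀ < ρ)
    (h : Col K M) : ColR ρ K M := by
  obtain ⟨G, hG, hG'⟩ := h
  exact ⟨G, fun δ η ↦ (Cardinal.le_aleph0_iff_set_countable.2 (hG δ η)).trans_lt hρ, hG'⟩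

theorem CatchR.congr {ρ χ : Cardinal.{0}} {X Y K : Type} (e : X ≃ Y)
    (h : CatchR ρ χ X K) : CatchR ρ χ Y K := by
  intro D hD
  obtain ⟨F, hF, hF'⟩ := h ((fun g ↦ g ∘ e) '' D) (mk_image_le.trans hD)
  refine ⟨F ∘ e.symm, fun x ↦ hF _, fun g hg ↦ ?_⟩
  obtain ⟨x, hx⟩ := hF' _ ⟨g, hg, rfl⟩
  exact ⟨e x, by simpa using hx⟩

/-- The initial segment coloring. -/
theorem colR_initial {μ : Cardinal.{0}} (hμ : ℵ₀ ≤ μ) :
    ColR μ (KT (Order.succ μ)) (KT μ) := by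
  obtain ⟨r, hr⟩ := exists_rho hμ
  refine ⟨fun δ η ↦ Iic (r η δ), fun δ η ↦ mk_Iic_lt hμ _, fun A hA i ↦ ?_⟩
  obtain ⟨A₀, hA₀, hA₀'⟩ := le_mk_iff_exists_subset.1 (hA.lt_mk (bdd_succ hμ)).le
  obtain ⟨b, hb⟩ := bdd_succ hμ A₀ hA₀'.le
  refine ⟨b, fun η hη ↦ ?_⟩
  by_contra hc
  push Not at hc
  have h0 : ∀ y ∈ A, r η y ≤ i := fun y hy ↦ le_of_not_ge fun h ↦ hc y hy (mem_Iic.2 h)
  have h1 : #A₀ ≤ #(Iic i) := by
    refine Cardinal.mk_le_of_injective (f := fun y : A₀ ↦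
      (⟨r η y.1, mem_Iic.2 (h0 y.1 (hA₀ y.2))⟩ : Iic i)) ?_
    intro y z hyz
    exact Subtype.ext (hr η _ _ ((hb _ y.2).trans_le hη) ((hb _ z.2).trans_le hη)
      (congrArg Subtype.val hyz))
  rw [hA₀'] at h1
  exact absurd (mk_Iic_lt hμ i) (not_lt.2 h1)

section

variable {K : Type} [LinearOrder K] {μ : Cardinal.{0}}

/-- Catching functions with values in `M` by means of the coloring. -/
theorem catch_rows {ρ χ : Cardinal.{0}} {Z M : Type} (hK : Bdd K μ) (hM : #M ≤ μ)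
    (hcol : ColR ρ K M) (h : ND χ Z K) : CatchR ρ χ (Z × K) M := by
  intro D hD
  obtain ⟨G, hG, hG'⟩ := hcol
  have h1 : ∀ (g : Z × K → M) (z : Z), ∃ θ, ∀ η, θ ≤ η → ∃ δ, g (z, δ) ∈ G δ η := by
    intro g z
    obtain ⟨m, hm⟩ := exists_unb hK hM (fun m ↦ {δ | g (z, δ) = m})
      (fun x ↦ ⟨x, mem_iUnion.2 ⟨_, rfl⟩, le_rfl⟩)
    obtain ⟨θ, hθ⟩ := hG' _ hm m
    refine ⟨θ, fun η hη ↦ ?_⟩
    obtain ⟨δ, hδ, hδ'⟩ := hθ η hη
    have h2 : g (z, δ) = m := hδ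
    exact ⟨δ, h2 ▸ hδ'⟩
  choose θ hθ using h1
  obtain ⟨f, hf⟩ := h (θ '' D) (mk_image_le.trans hD)
  refine ⟨fun p ↦ G p.2 (f p.1), fun p ↦ hG _ _, fun g hg ↦ ?_⟩
  obtain ⟨z, hz⟩ := hf _ ⟨g, hg, rfl⟩
  obtain ⟨δ, hδ⟩ := hθ g z _ hz.le
  exact ⟨(z, δ), hδ⟩

/-- Going up from `M = μ` to `K = μ⁺`. -/
theorem catchR_step {ρ χ : Cardinal.{0}} {X M : Type} [Nonempty X] [Nonempty M]
    (e : K → M → K) (he : ∀ a x, x < a → ∃ m, e a m = x) (hχ : ℵ₀ ≤ χ) (hX : #X ≤ χ)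
    (h : ND χ X K) (h' : CatchR ρ χ X M) : CatchR ρ χ (X × X) K := by
  intro D hD
  have h1 : #(⋃ γ : X, (fun (g : X × X → K) (β : X) ↦ g (γ, β)) '' D) ≤ χ := by
    refine (mk_iUnion_le _).trans ?_
    refine (mul_le_mul' hX (ciSup_le' fun γ ↦ mk_image_le.trans hD)).trans ?_
    rw [mul_eq_self hχ]
  obtain ⟨f, hf⟩ := h _ h1
  have h2 : ∀ (g : X × X → K), g ∈ D → ∀ γ, ∃ β, ∃ m, e (f β) m = g (γ, β) := by
    intro g hg γ
    obtain ⟨β, hβ⟩ := hf _ (mem_iUnion.2 ⟨γ, g, hg, rfl⟩)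
    obtain ⟨m, hm⟩ := he _ _ hβ
    exact ⟨β, m, hm⟩
  choose! β m hm using h2
  obtain ⟨F, hF, hF'⟩ := h' (m '' D) (mk_image_le.trans hD)
  refine ⟨fun p ↦ e (f p.2) '' F p.1, fun p ↦ mk_image_le.trans_lt (hF _), fun g hg ↦ ?_⟩
  obtain ⟨γ, hγ⟩ := hF' _ ⟨g, hg, rfl⟩
  exact ⟨(γ, β g γ), m g γ, hγ, hm g hg γ⟩

/-- A small family of functions with small values catching every function in every row. -/
theorem exists_coverR {ρ : Cardinal.{0}} {M X : Type} (hK : Bdd K μ) (hM : #M ≤ μ)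
    (hcol : ColR ρ K M) (e : K → M → K) (he : ∀ a x, x ≤ a → ∃ m, e a m = x)
    (H : Set (X → K)) (hH : ∀ f : X → K, ∃ h ∈ H, ∀ x, f x ≤ h x)
    (H₂ : Set (X × K → K)) (hH₂ : ∀ f : X × K → K, ∃ h ∈ H₂, ∀ x, f x ≤ h x) :
    ∃ F : H × H₂ → X × K → Set K, (∀ p x, #(F p x) < ρ) ∧
      ∀ g : X × K → K, ∃ p, ∀ x, ∃ δ, g (x, δ) ∈ F p (x, δ) := by
  obtain ⟨G, hG, hG'⟩ := hcol
  refine ⟨fun p x ↦ e (p.2.1 x) '' G x.2 (p.1.1 x.1),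
    fun p x ↦ mk_image_le.trans_lt (hG _ _), fun g ↦ ?_⟩
  obtain ⟨h₂, hh₂, hgh⟩ := hH₂ g
  have h4 : ∀ x, ∃ m : M, Unb {δ | e (h₂ (x, δ)) m = g (x, δ)} := by
    intro x
    refine exists_unb hK hM _ fun δ ↦ ⟨δ, ?_, le_rfl⟩
    obtain ⟨m, hm⟩ := he _ _ (hgh (x, δ))
    exact mem_iUnion.2 ⟨m, hm⟩
  choose m hm using h4
  have h5 : ∀ x, ∃ θ, ∀ η, θ ≤ η → ∃ δ, e (h₂ (x, δ)) (m x) = g (x, δ) ∧ m x ∈ G δ η := by
    intro x
    obtain ⟨θ, hθ⟩ := hG' _ (hm x) (m x)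
    refine ⟨θ, fun η hη ↦ ?_⟩
    obtain ⟨δ, hδ, hδ'⟩ := hθ η hη
    exact ⟨δ, hδ, hδ'⟩
  choose θ hθ using h5
  obtain ⟨h₁, hh₁, hθh⟩ := hH θ
  refine ⟨(⟨h₁, hh₁⟩, ⟨h₂, hh₂⟩), fun x ↦ ?_⟩
  obtain ⟨δ, hδ, hδ'⟩ := hθ x _ (hθh x)
  exact ⟨δ, m x, hδ', hδ⟩

end

/-- Transfer of a dominating family. -/
theorem dom_transferR {χ : Cardinal.{0}} {X Y K : Type} [LinearOrder K] [Nonempty K]
    (hXY : #X ≤ #Y)
    (h : ∃ H : Set (Y → K), #H ≤ χ ∧ ∀ f : Y → K, ∃ g ∈ H, ∀ x, f x ≤ g x) :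
    ∃ H : Set (X → K), #H ≤ χ ∧ ∀ f : X → K, ∃ g ∈ H, ∀ x, f x ≤ g x := by
  classical
  obtain ⟨ι⟩ := Cardinal.le_def _ _ |>.1 hXY
  obtain ⟨H, hH, hH'⟩ := h
  refine ⟨(fun g ↦ g ∘ ι) '' H, mk_image_le.trans hH, fun f ↦ ?_⟩
  obtain ⟨g, hg, hfg⟩ := hH' (Function.extend ι f fun _ ↦ Classical.arbitrary K)
  refine ⟨g ∘ ι, ⟨g, hg, rfl⟩, fun x ↦ ?_⟩
  have := hfg (ι x)
  rwa [ι.injective.extend_apply] at this

/-- The main comparison, in terms of catching and covering. -/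
theorem compareR {ρ : Cardinal.{0}} {K : Type} [LinearOrder K] [Nonempty K]
    (hmax : ∀ x : K, ∃ y, x < y) (hg : Guess ρ K)
    (hcatch : ∀ χ : Cardinal.{0}, 𝔠 ≤ χ → ND χ (ℕ → ℕ) K → CatchR ρ χ (ℕ → ℕ) K)
    (hcover : ∀ χ : Cardinal.{0}, 𝔠 ≤ χ →
      (∃ H : Set ((ℕ → ℕ) → K), #H ≤ χ ∧ ∀ f : (ℕ → ℕ) → K, ∃ g ∈ H, ∀ x, f x ≤ g x) →
      ∃ P Y : Type, #P ≤ χ ∧ #Y ≤ 𝔠 ∧ ∃ F : P → CoBig × Y → Set K, (∀ p x, #(F p x) < ρ) ∧
        ∀ g : CoBig × Y → K, ∃ p, ∀ B, ∃ y, g (B, y) ∈ F p (B, y))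
    {I J : Set (Set (ℕ → ℕ))} (hI : Good I) (hJ : Good J) (hJ0 : ∅ ∈ J) :
    bNum (NeMod I) ≤ dNum (NeMod J) := by
  classical
  obtain ⟨idx, hidx⟩ := hg
  -- a dominating family of least cardinality
  have hne : {κ | ∃ A : Set ((ℕ → ℕ) → (ℕ → ℕ)), #A = κ ∧ ∀ x, ∃ y ∈ A, NeMod J x y}.Nonempty := by
    refine ⟨_, Set.univ, rfl, fun x ↦ ⟨fun r k ↦ x r k + 1, mem_univ _, ?_⟩⟩
    have h1 : {r : ℕ → ℕ | ¬ EvDiff (x r) (fun k ↦ x r k + 1)} = ∅ := by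
      ext r
      simp only [mem_ofPred_eq, mem_empty_iff_false, iff_false, not_not]
      exact Eventually.of_forall fun k ↦ (Nat.succ_ne_self _).symm
    show {r : ℕ → ℕ | ¬ EvDiff (x r) (fun k ↦ x r k + 1)} ∈ J
    rw [h1]
    exact hJ0
  obtain ⟨D, hD, hD'⟩ := csInf_mem hne
  have hD0 : #D = dNum (NeMod J) := hD
  rw [← hD0]
  -- the family gives a dominating family of functions to `K`
  have key : ¬ ND (max #D 𝔠) (ℕ → ℕ) K := by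
    intro hnd
    have hc := hcatch _ (le_max_right _ _) hnd
    obtain ⟨x, hx, hx'⟩ := exists_points (P := ℕ → ℕ) mk_baire.le
    obtain ⟨F, hF, hF'⟩ := hc (⋃ B : CoBig, (fun (g : (ℕ → ℕ) → (ℕ → ℕ)) (p : ℕ → ℕ) ↦
      idx (g (x (B, p)))) '' D) (by
        refine (mk_iUnion_le _).trans ?_
        refine (mul_le_mul' (mk_coBig_le.trans (le_max_right #D 𝔠)) (ciSup_le' fun B ↦
          mk_image_le.trans (le_max_left #D 𝔠))).trans ?_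
        rw [mul_eq_self (aleph0_le_continuum.trans (le_max_right _ _))])
    choose comb hcomb using fun p ↦ hidx (F p) (hF p)
    obtain ⟨g, hg, hfg⟩ := hD' (fun y ↦ if h : ∃ q, x q = y then comb h.choose.2 else 0)
    obtain ⟨B, hB, hAB, hBc⟩ := hJ _ hfg
    obtain ⟨p, hp⟩ := hF' _ (mem_iUnion.2 ⟨⟨B, hB, hBc⟩, g, hg, rfl⟩)
    refine hx' ⟨B, hB, hBc⟩ p (hAB ?_)
    have h1 : ∃ q, x q = x (⟨B, hB, hBc⟩, p) := ⟨_, rfl⟩
    have h2 : h1.choose = (⟨B, hB, hBc⟩, p) := hx h1.choose_spec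
    show ¬ EvDiff (if h : ∃ q, x q = x (⟨B, hB, hBc⟩, p) then comb h.choose.2 else 0)
      (g (x (⟨B, hB, hBc⟩, p)))
    rw [dif_pos h1, h2]
    exact hcomb p _ hp
  have hDc : 𝔠 < #D := by
    by_contra hc
    rw [max_eq_right (not_lt.1 hc)] at key
    exact key (nd_diag hmax mk_baire.ge)
  rw [max_eq_left hDc.le] at key
  have key' : ∃ H : Set ((ℕ → ℕ) → K), #H ≤ #D ∧
      ∀ f : (ℕ → ℕ) → K, ∃ g ∈ H, ∀ x, f x ≤ g x := by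
    simp only [ND] at key
    push Not at key
    exact key
  obtain ⟨P, Y, hP, hY, F, hF, hF'⟩ := hcover _ hDc.le key'
  obtain ⟨x, hx, hx'⟩ := exists_points (P := Y) hY
  choose comb hcomb using fun p q ↦ hidx (F p q) (hF p q)
  let f : P → (ℕ → ℕ) → (ℕ → ℕ) := fun p y ↦
    if h : ∃ q, x q = y then comb p h.choose else 0
  refine (csInf_le' (s := {κ | ∃ A : Set ((ℕ → ℕ) → (ℕ → ℕ)), #A = κ ∧
    ¬ ∃ x, ∀ y ∈ A, NeMod I y x}) ⟨range f, rfl, ?_⟩).trans ?_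
  · rintro ⟨g, hg⟩
    obtain ⟨p, hp⟩ := hF' fun q ↦ idx (g (x q))
    obtain ⟨B, hB, hAB, hBc⟩ := hI _ (hg (f p) ⟨p, rfl⟩)
    obtain ⟨δ, hδ⟩ := hp ⟨B, hB, hBc⟩
    refine hx' ⟨B, hB, hBc⟩ δ (hAB ?_)
    have h1 : ∃ q, x q = x (⟨B, hB, hBc⟩, δ) := ⟨_, rfl⟩
    have h2 : h1.choose = (⟨B, hB, hBc⟩, δ) := hx h1.choose_spec
    show ¬ EvDiff (if h : ∃ q, x q = x (⟨B, hB, hBc⟩, δ) then comb p h.choose else 0)
      (g (x (⟨B, hB, hBc⟩, δ)))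
    rw [dif_pos h1, h2]
    exact hcomb p _ _ hδ
  · exact mk_range_le.trans hP

/-- The comparison for a successor cardinal with the coloring property. -/
theorem compare_succ {ρ μ : Cardinal.{0}} (hμ : ℵ₀ ≤ μ) (hμc : Order.succ μ ≤ 𝔠)
    (hg : Guess ρ (KT (Order.succ μ))) (hcol : ColR ρ (KT (Order.succ μ)) (KT μ))
    {I J : Set (Set (ℕ → ℕ))} (hI : Good I) (hJ : Good J) (hJ0 : ∅ ∈ J) :
    bNum (NeMod I) ≤ dNum (NeMod J) := by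
  have hμ' : ℵ₀ ≤ Order.succ μ := hμ.trans (Order.le_succ μ)
  have : Nonempty (KT (Order.succ μ)) := nonempty_KT hμ'
  have : Nonempty (KT μ) := nonempty_KT hμ
  obtain ⟨e, he⟩ := exists_e hμ
  refine compareR (fun y ↦ ?_) hg (fun χ hχ hnd ↦ ?_) (fun χ hχ hdom ↦ ?_) hI hJ hJ0
  · obtain ⟨b, hb⟩ := bdd_succ hμ {y} (by
      rw [mk_singleton]; exact one_le_aleph0.trans hμ)
    exact ⟨b, hb y rfl⟩
  · obtain ⟨e1⟩ := Cardinal.eq.1 (show #((ℕ → ℕ) × KT (Order.succ μ)) = #(ℕ → ℕ) by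
      rw [mk_prod, lift_id, lift_id, mk_ord_toType, mk_baire]
      exact Cardinal.mul_eq_left aleph0_le_continuum hμc
        (aleph0_pos.trans_le (hμ.trans (Order.le_succ μ))).ne')
    obtain ⟨e2⟩ := Cardinal.eq.1 (show #((ℕ → ℕ) × (ℕ → ℕ)) = #(ℕ → ℕ) by
      rw [mk_prod, lift_id, mk_baire, continuum_mul_self])
    exact (catchR_step e (fun a x hx ↦ he a x hx.le) (aleph0_le_continuum.trans hχ)
      (mk_baire.le.trans hχ) hnd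
      ((catch_rows (bdd_succ hμ) (by rw [mk_ord_toType]) hcol hnd).congr e1)).congr e2
  · obtain ⟨H₁, hH₁, hH₁'⟩ := dom_transferR (X := CoBig) (by
      rw [mk_baire]; exact mk_coBig_le) hdom
    obtain ⟨H₂, hH₂, hH₂'⟩ := dom_transferR (X := CoBig × KT (Order.succ μ)) (by
      rw [mk_baire, mk_prod, lift_id, lift_id, mk_ord_toType]
      exact (mul_le_mul' mk_coBig_le hμc).trans (by rw [continuum_mul_self])) hdom
    obtain ⟨F, hF, hF'⟩ := exists_coverR (bdd_succ hμ) (by rw [mk_ord_toType]) hcol e he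
      H₁ hH₁' H₂ hH₂'
    refine ⟨H₁ × H₂, KT (Order.succ μ), ?_, by rw [mk_ord_toType]; exact hμc, F, hF, hF'⟩
    rw [mk_prod, lift_id, lift_id]
    exact (mul_le_mul' hH₁ hH₂).trans (by rw [mul_eq_self (aleph0_le_continuum.trans hχ)])

/-- The comparison when all proper initial segments are small. -/
theorem compare_initial {ρ : Cardinal.{0}} {K : Type} [LinearOrder K] [Nonempty K]
    (hmax : ∀ x : K, ∃ y, x < y) (hg : Guess ρ K) (hK : ∀ a : K, #(Iic a) < ρ)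
    {I J : Set (Set (ℕ → ℕ))} (hI : Good I) (hJ : Good J) (hJ0 : ∅ ∈ J) :
    bNum (NeMod I) ≤ dNum (NeMod J) := by
  refine compareR hmax hg (fun χ hχ hnd ↦ ?_) (fun χ hχ hdom ↦ ?_) hI hJ hJ0
  · intro D hD
    obtain ⟨f, hf⟩ := hnd D hD
    refine ⟨fun x ↦ Iic (f x), fun x ↦ hK _, fun g hg ↦ ?_⟩
    obtain ⟨x, hx⟩ := hf g hg
    exact ⟨x, hx.le⟩
  · obtain ⟨H₁, hH₁, hH₁'⟩ := dom_transferR (X := CoBig) (by
      rw [mk_baire]; exact mk_coBig_le) hdom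
    refine ⟨H₁, Unit, hH₁, ?_, fun p x ↦ Iic (p.1 x.1), fun p x ↦ hK _, fun g ↦ ?_⟩
    · rw [mk_unit]
      exact one_le_aleph0.trans aleph0_le_continuum
    · obtain ⟨h, hh, hgh⟩ := hH₁' fun B ↦ g (B, ())
      exact ⟨⟨h, hh⟩, fun B ↦ ⟨(), hgh B⟩⟩

end Pool.Agent.MP531
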