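import Pool.Agent.Lib.MP_531aff_lc.Guess

/-!
The case of a set of `𝔠` many reals such that every real is infinitely often equal to only
countably many of them.
-/

open Cardinal Set Filter Topology

namespace Pool.Agent.MP531

theorem evDiff_symm {x y : ℕ → ℕ} (h : EvDiff x y) : EvDiff y x :=
  h.mono fun _ hk h' ↦ hk h'.symm

theorem bdd_countable (B : Set (KT 𝔠)) (hB : B.Countable) : ∃ t, ∀ s ∈ B, s < t := by
  by_contra hc
  push Not at hc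
  have h1 : IsCofinal B := fun t ↦ hc t
  have h2 := Order.cof_le h1
  rw [Ordinal.cof_toType] at h2
  have h3 : ℵ₀ < (𝔠 : Cardinal.{0}).ord.cof := by
    have := lt_cof_ord_power (a := ℵ₀) (b := 2) le_rfl (by norm_num)
    rwa [two_power_aleph0] at this
  exact absurd (h3.trans_le (h2.trans (Cardinal.le_aleph0_iff_set_countable.2 hB)))
    (lt_irrefl _)

section

variable (r : (ℕ → ℕ) → (ℕ → ℕ)) (hr : ∀ z, {y | ¬ EvDiff z (r y)}.Countable)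

include hr

/-- Sets of size less than the continuum are meager. -/
theorem isMeagre_of_small {Z : Set (ℕ → ℕ)} (hZ : #Z < 𝔠) : IsMeagre Z := by
  have h1 : #(⋃ z : Z, {y | ¬ EvDiff z.1 (r y)} : Set (ℕ → ℕ)) < 𝔠 := by
    refine (mk_iUnion_le _).trans_lt ?_
    refine (mul_le_mul_right (ciSup_le' fun z : Z ↦
      Cardinal.le_aleph0_iff_set_countable.2 (hr z.1)) _).trans_lt ?_
    exact mul_lt_of_lt aleph0_le_continuum hZ aleph0_lt_continuum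
  have h2 : (⋃ z : Z, {y | ¬ EvDiff z.1 (r y)} : Set (ℕ → ℕ)) ≠ Set.univ := by
    intro h
    rw [h, mk_univ, mk_baire] at h1
    exact absurd h1 (lt_irrefl _)
  obtain ⟨y, hy⟩ := (ne_univ_iff_exists_notMem _).1 h2
  refine (isMeagre_not_catc (r y)).mono fun z hz ↦ ?_
  intro hc
  exact hy (mem_iUnion.2 ⟨⟨z, hz⟩, hc.not_evDiff⟩)

/-- The dominating number is small. -/
theorem dNum_le_of_dom {J : Set (Set (ℕ → ℕ))} (hJ0 : ∅ ∈ J) {χ : Cardinal.{0}}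
    (H : Set (KT 𝔠 → KT 𝔠)) (hH : #H ≤ χ) (hdom : ∀ f : KT 𝔠 → KT 𝔠, ∃ h ∈ H, ∀ x, f x ≤ h x) :
    dNum (NeMod J) ≤ χ := by
  obtain ⟨e⟩ := Cardinal.eq.1 (show #(KT 𝔠) = #(ℕ → ℕ) by rw [mk_ord_toType, mk_baire])
  let G : (KT 𝔠 → KT 𝔠) → (ℕ → ℕ) → (ℕ → ℕ) := fun h x ↦ r (e (h (e.symm x)))
  refine (csInf_le' (s := {κ | ∃ A : Set ((ℕ → ℕ) → (ℕ → ℕ)), #A = κ ∧
    ∀ x, ∃ y ∈ A, NeMod J x y}) ⟨G '' H, rfl, fun f ↦ ?_⟩).trans (mk_image_le.trans hH)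
  have h1 : ∀ k : KT 𝔠, ∃ b : KT 𝔠, ∀ l, ¬ EvDiff (f (e k)) (r (e l)) → l < b := by
    intro k
    obtain ⟨b, hb⟩ := bdd_countable (e ⁻¹' {y | ¬ EvDiff (f (e k)) (r y)})
      ((hr _).preimage e.injective)
    exact ⟨b, fun l hl ↦ hb l hl⟩
  choose b hb using h1
  obtain ⟨h, hh, hbh⟩ := hdom b
  refine ⟨G h, ⟨h, hh, rfl⟩, ?_⟩
  have h2 : {x | ¬ EvDiff (f x) (G h x)} = ∅ := by
    ext x
    simp only [mem_ofPred_eq, mem_empty_iff_false, iff_false, not_not]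
    by_contra hc
    have h3 := hb (e.symm x) (h (e.symm x)) (by rw [e.apply_symm_apply]; exact hc)
    exact absurd (h3.trans_le (hbh _)) (lt_irrefl _)
  show {x | ¬ EvDiff (f x) (G h x)} ∈ J
  rw [h2]
  exact hJ0

/-- The bounding number is large. -/
theorem lt_bNum_of_avoid {χ : Cardinal.{0}}
    (hav : ∀ C : Set (KT 𝔠 → Set (KT 𝔠)), #C ≤ χ → (∀ F ∈ C, ∀ x, (F x).Countable) →
      ∃ g : KT 𝔠 → KT 𝔠, ∀ F ∈ C, #{x | g x ∈ F x} < 𝔠) :
    χ < bNum (NeMod meagerSets) := by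
  obtain ⟨e⟩ := Cardinal.eq.1 (show #(KT 𝔠) = #(ℕ → ℕ) by rw [mk_ord_toType, mk_baire])
  have hne : {κ | ∃ A : Set ((ℕ → ℕ) → (ℕ → ℕ)), #A = κ ∧
      ¬ ∃ x, ∀ y ∈ A, NeMod meagerSets y x}.Nonempty := by
    refine ⟨_, Set.univ, rfl, ?_⟩
    rintro ⟨g, hg⟩
    have h1 : IsMeagre {x | ¬ EvDiff (g x) (g x)} := hg g (mem_univ _)
    have h2 : {x | ¬ EvDiff (g x) (g x)} = Set.univ := by
      refine eq_univ_of_forall fun x hc ↦ ?_
      obtain ⟨k, hk⟩ := hc.exists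
      exact hk rfl
    rw [h2] at h1
    obtain ⟨B, _, hB, hB'⟩ := good_meager _ h1
    refine hB' ?_
    rw [univ_subset_iff.1 hB, compl_univ]
    exact countable_empty
  obtain ⟨A, hA, hA'⟩ := csInf_mem hne
  have hA0 : #A = bNum (NeMod meagerSets) := hA
  rw [← hA0]
  by_contra hc
  let Φ : ((ℕ → ℕ) → (ℕ → ℕ)) → KT 𝔠 → Set (KT 𝔠) := fun f k ↦
    {l | ¬ EvDiff (f (e k)) (r (e l))}
  obtain ⟨g, hg⟩ := hav (Φ '' A) (mk_image_le.trans (not_lt.1 hc)) (by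
    rintro _ ⟨f, _, rfl⟩ x
    exact (hr _).preimage e.injective)
  refine hA' ⟨fun x ↦ r (e (g (e.symm x))), fun f hf ↦ ?_⟩
  have h1 := hg _ ⟨f, hf, rfl⟩
  refine isMeagre_of_small r hr (lt_of_le_of_lt ?_ h1)
  refine Cardinal.mk_le_of_injective (f := fun x :
    ({x | ¬ EvDiff (f x) (r (e (g (e.symm x))))} : Set (ℕ → ℕ)) ↦
      (⟨e.symm x.1, by
        show ¬ EvDiff (f (e (e.symm x.1))) (r (e (g (e.symm x.1))))
        rw [e.apply_symm_apply]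
        exact x.2⟩ : {x | g x ∈ Φ f x})) ?_
  intro x y hxy
  exact Subtype.ext (e.symm.injective (congrArg Subtype.val hxy))

end

end Pool.Agent.MP531
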